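import Mathlib
import Pool.Agent.H6.Win.Line

/-!
# The prime number theorem with finitely many zeros: definitions
-/

set_option autoImplicit false

open Complex

namespace Pool.Agent.H48.LDP

open Pool.Agent.H6 Pool.Agent.H6.Win

/-- the coefficients `Λ(n) - 1 + ∑_{ρ ∈ Z} m(ρ) n^(ρ-1)` -/
noncomputable def aZ (Z : Finset ℂ) (n : ℕ) : ℂ :=
  ((ArithmeticFunction.vonMangoldt n : ℝ) : ℂ) - 1 + ∑ ρ ∈ Z, (zord ρ : ℂ) * (n : ℂ) ^ (ρ - 1)

/-- the entire function `ζ(w) - 1/(w-1)` -/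
noncomputable def e0 (w : ℂ) : ℂ := dslope zetaPole 1 w

/-- the Dirichlet series of `aZ Z`, continued -/
noncomputable def AZ (H : ℂ → ℂ) (Z : Finset ℂ) (s : ℂ) : ℂ :=
  H s - e0 s + ∑ ρ ∈ Z, (zord ρ : ℂ) * e0 (s - ρ + 1)

/-- `s` is on the left side or the horizontal sides of the rectangle `[σ, 2] × [-T, T]` -/
def OnP (σ T : ℝ) (s : ℂ) : Prop :=
  (s.re = σ ∧ |s.im| ≤ T) ∨ (σ ≤ s.re ∧ s.re ≤ 2 ∧ |s.im| = T)

/-- the total multiplicity -/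
noncomputable def mul (Z : Finset ℂ) : ℕ := ∑ ρ ∈ Z, zord ρ

end Pool.Agent.H48.LDP
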