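import Mathlib
import Pool.Agent.H48.LDP.Defs

/-!
# E0: the entire part of `ζ`

PROOF.  `e0 = dslope zetaPole 1`, `zetaPole 1 = 1`, `zetaPole w = (w-1) ζ(w)` (`zetaPole_differentiable`): entire
(`Complex.differentiableOn_dslope` or `AnalyticAt` of `dslope`), and `e0 w = (zetaPole w - 1)/(w - 1)` for `w ≠ 1`.
Bound: for `‖w - 1‖ ≥ 1`, `Re w ≥ 1/2`: `norm_zetaPole_le` gives `≤ (2 (1+‖w‖)² + 1)/‖w-1‖ ≤ C (1 + ‖w‖)`; for
`‖w - 1‖ ≤ 1` compactness.  About 80 lines.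
-/

set_option autoImplicit false

open Complex

namespace Pool.Agent.H48.LDP

open Pool.Agent.H6 Pool.Agent.H6.Win

theorem e0_diff : Differentiable ℂ e0 := by
  have h : DifferentiableOn ℂ (dslope zetaPole 1) Set.univ :=
    (Complex.differentiableOn_dslope (s := Set.univ) (c := (1 : ℂ)) (f := zetaPole) Filter.univ_mem).2
      zetaPole_differentiable.differentiableOn
  exact differentiableOn_univ.1 h

private lemma e0_val {w : ℂ} (hw : w ≠ 1) : e0 w = (zetaPole w - 1) / (w - 1) := by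
  unfold e0
  rw [dslope_of_ne _ hw, slope_def_field, zetaPole_one]

theorem e0_eq {w : ℂ} (hw : w ≠ 1) : riemannZeta w = 1 / (w - 1) + e0 w := by
  have h1 : w - 1 ≠ 0 := sub_ne_zero.2 hw
  have h2 : zetaPole w = (w - 1) * riemannZeta w := by
    simp [zetaPole, Function.update_of_ne hw]
  rw [e0_val hw, h2]
  field_simp
  ring

theorem e0_bound : ∃ C : ℝ, 1 ≤ C ∧ ∀ w : ℂ, 1 / 2 ≤ w.re → ‖e0 w‖ ≤ C * (1 + ‖w‖) := by
  obtain ⟨K, hK⟩ := (isCompact_closedBall (1 : ℂ) 1).exists_bound_of_continuousOn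
    (f := e0) e0_diff.continuous.continuousOn
  refine ⟨max 9 K, le_trans (by norm_num) (le_max_left _ _), fun w hw => ?_⟩
  have hn : 0 ≤ ‖w‖ := norm_nonneg w
  by_cases hb : ‖w - 1‖ ≤ 1
  · have h1 : ‖e0 w‖ ≤ K := hK w (by simpa [Metric.mem_closedBall, dist_eq_norm] using hb)
    have h2 : K ≤ max 9 K := le_max_right _ _
    have h3 : (0 : ℝ) ≤ max 9 K := le_trans (by norm_num) (le_max_left _ _)
    nlinarith [mul_nonneg h3 hn]
  · rw [not_le] at hb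
    have hw1 : w ≠ 1 := by
      rintro rfl
      norm_num at hb
    have h1 := norm_zetaPole_le hw
    have h2 : ‖e0 w‖ ≤ (2 * (1 + ‖w‖) ^ 2 + 1) / ‖w - 1‖ := by
      rw [e0_val hw1, norm_div]
      gcongr
      calc ‖zetaPole w - 1‖ ≤ ‖zetaPole w‖ + ‖(1 : ℂ)‖ := norm_sub_le _ _
        _ ≤ _ := by rw [norm_one]; linarith
    have h3 : 1 + ‖w‖ ≤ 3 * ‖w - 1‖ := by
      have : ‖w‖ ≤ ‖w - 1‖ + 1 := by
        calc ‖w‖ = ‖(w - 1) + 1‖ := by ring_nf
          _ ≤ ‖w - 1‖ + ‖(1 : ℂ)‖ := norm_add_le _ _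
          _ = _ := by rw [norm_one]
      linarith
    have hpos : 0 < ‖w - 1‖ := by linarith
    have h4 : (2 * (1 + ‖w‖) ^ 2 + 1) / ‖w - 1‖ ≤ 9 * (1 + ‖w‖) := by
      rw [div_le_iff₀ hpos]
      nlinarith [mul_nonneg hn hn, mul_nonneg hn hpos.le]
    calc ‖e0 w‖ ≤ 9 * (1 + ‖w‖) := h2.trans h4
      _ ≤ max 9 K * (1 + ‖w‖) := by
        gcongr
        exact le_max_left _ _

end Pool.Agent.H48.LDP
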