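import Mathlib
import Pool.Agent.H48.LDP.E0
import Pool.Agent.H76.LF.Low

/-!
# AS: the Dirichlet series of `aZ Z` for `Re s > 1`

PROOF.  `Re ρ < 1` for `ρ ∈ Z` (`zetaPole_ne_zero_of_one_le`).  `LSeries Λ s = -zetaPole'/zetaPole (s) + 1/(s-1)`
(`neg_logDeriv_zetaPole`), `LSeries 1 s = ζ(s) = 1/(s-1) + e0 s`, `LSeries (n^(ρ-1)) s = ζ(s-ρ+1) = 1/(s-ρ) + e0(s-ρ+1)`
(`LSeries_one_eq_riemannZeta` or `zeta_eq_tsum_one_div_nat_cpow`; `Re (s-ρ+1) > 1`), and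
`hline Z s = -zetaPole'/zetaPole + ∑ zord ρ/(s-ρ)`.  Careful at `n = 0` (`LSeries.term` is `0` there).
Bound: `‖aZ Z n‖ ≤ Λ(n) + 1 + mul Z` for `n ≥ 1` (`‖n^(ρ-1)‖ ≤ 1`), `∑ n^(-c) ≤ 1 + 1/(c-1)`, `∑ Λ(n) n^(-c) ≤ C/(c-1)` for
`1 < c ≤ 2` (see `lowA` in `H76/LF/Low.lean`, `dco0_bound` in `H76/SV/TailV.lean`).  About 150 lines.
-/

set_option autoImplicit false

open Complex

namespace Pool.Agent.H48.LDP

open Pool.Agent.H6 Pool.Agent.H6.Win

private theorem as_re {Z : Finset ℂ} (hZ : ∀ ρ ∈ Z, zetaPole ρ = 0) {ρ : ℂ} (hρ : ρ ∈ Z) : ρ.re < 1 := by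
  by_contra h
  exact zetaPole_ne_zero_of_one_le (not_lt.1 h) (hZ ρ hρ)

private theorem as_dec (Z : Finset ℂ) : aZ Z = (fun n => (ArithmeticFunction.vonMangoldt n : ℂ)) - 1 +
    ∑ ρ ∈ Z, (zord ρ : ℂ) • (fun n : ℕ => (n : ℂ) ^ (ρ - 1)) := by
  funext n
  simp [aZ, Finset.sum_apply]

private theorem as_term (ρ s : ℂ) :
    LSeries.term (fun n : ℕ => (n : ℂ) ^ (ρ - 1)) s = LSeries.term 1 (s - ρ + 1) := by
  funext n
  rcases Nat.eq_zero_or_pos n with rfl | hn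
  · rw [LSeries.term_zero, LSeries.term_zero]
  · have hn0 : n ≠ 0 := hn.ne'
    have hn' : (n : ℂ) ≠ 0 := by exact_mod_cast hn0
    have hne : ∀ z : ℂ, (n : ℂ) ^ z ≠ 0 := by
      intro z h
      rw [cpow_eq_zero_iff] at h
      exact hn' h.1
    rw [LSeries.term_of_ne_zero hn0, LSeries.term_of_ne_zero hn0, Pi.one_apply,
      div_eq_div_iff (hne s) (hne _),
      ← cpow_add _ _ hn', one_mul]
    congr 1
    ring

private theorem as_sum (ρ : ℂ) (hρ : ρ.re < 1) {s : ℂ} (hs : 1 < s.re) :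
    LSeriesSummable (fun n : ℕ => (n : ℂ) ^ (ρ - 1)) s := by
  unfold LSeriesSummable
  rw [as_term]
  refine LSeriesSummable_one_iff.2 ?_
  rw [add_re, sub_re, one_re]
  linarith

private theorem as_val (ρ : ℂ) (hρ : ρ.re < 1) {s : ℂ} (hs : 1 < s.re) :
    LSeries (fun n : ℕ => (n : ℂ) ^ (ρ - 1)) s = riemannZeta (s - ρ + 1) := by
  rw [← LSeries_one_eq_riemannZeta (s := s - ρ + 1)]
  · unfold LSeries
    rw [as_term]
  · rw [add_re, sub_re, one_re]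
    linarith

theorem aZ_norm (Z : Finset ℂ) (hZ : ∀ ρ ∈ Z, zetaPole ρ = 0) {n : ℕ} (hn : 1 ≤ n) :
    ‖aZ Z n‖ ≤ ArithmeticFunction.vonMangoldt n + 1 + mul Z := by
  have h1 : ‖(((ArithmeticFunction.vonMangoldt n : ℝ) : ℂ) - 1)‖ ≤ ArithmeticFunction.vonMangoldt n + 1 := by
    refine (norm_sub_le _ _).trans ?_
    rw [norm_real, Real.norm_of_nonneg ArithmeticFunction.vonMangoldt_nonneg, norm_one]
  have h2 : ‖∑ ρ ∈ Z, (zord ρ : ℂ) * (n : ℂ) ^ (ρ - 1)‖ ≤ mul Z := by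
    refine (norm_sum_le _ _).trans ?_
    unfold mul
    rw [Nat.cast_sum]
    refine Finset.sum_le_sum fun ρ hρ => ?_
    rw [norm_mul, Complex.norm_natCast, norm_natCast_cpow_of_pos (by omega)]
    have h3 : (n : ℝ) ^ (ρ - 1).re ≤ 1 := by
      refine Real.rpow_le_one_of_one_le_of_nonpos (by exact_mod_cast hn) ?_
      rw [sub_re, one_re]
      linarith [as_re hZ hρ]
    calc (zord ρ : ℝ) * (n : ℝ) ^ (ρ - 1).re ≤ (zord ρ : ℝ) * 1 :=
          mul_le_mul_of_nonneg_left h3 (Nat.cast_nonneg _)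
      _ = zord ρ := mul_one _
  exact (norm_add_le _ _).trans (add_le_add h1 h2)

theorem aZ_summable (Z : Finset ℂ) (hZ : ∀ ρ ∈ Z, zetaPole ρ = 0) {s : ℂ} (hs : 1 < s.re) :
    LSeriesSummable (aZ Z) s := by
  rw [as_dec]
  refine LSeriesSummable.add (LSeriesSummable.sub (ArithmeticFunction.LSeriesSummable_vonMangoldt hs)
    (LSeriesSummable_one_iff.2 hs)) ?_
  exact LSeriesSummable.sum fun ρ hρ => (as_sum ρ (as_re hZ hρ) hs).smul _

private theorem as_ser (Z : Finset ℂ) (hZ : ∀ ρ ∈ Z, zetaPole ρ = 0) {s : ℂ} (hs : 1 < s.re) :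
    LSeries (aZ Z) s = LSeries (fun n => (ArithmeticFunction.vonMangoldt n : ℂ)) s - riemannZeta s +
      ∑ ρ ∈ Z, (zord ρ : ℂ) * riemannZeta (s - ρ + 1) := by
  have h1 : ∀ ρ ∈ Z, LSeriesSummable ((zord ρ : ℂ) • (fun n : ℕ => (n : ℂ) ^ (ρ - 1))) s :=
    fun ρ hρ => (as_sum ρ (as_re hZ hρ) hs).smul _
  have h2 := ArithmeticFunction.LSeriesSummable_vonMangoldt hs
  have h3 : LSeriesSummable 1 s := LSeriesSummable_one_iff.2 hs
  rw [as_dec, LSeries_add (h2.sub h3) (LSeriesSummable.sum h1), LSeries_sub h2 h3, LSeries_sum h1,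
    LSeries_one_eq_riemannZeta hs]
  congr 1
  refine Finset.sum_congr rfl fun ρ hρ => ?_
  rw [LSeries_smul, as_val ρ (as_re hZ hρ) hs]

theorem aZ_LSeries (Z : Finset ℂ) (hZ : ∀ ρ ∈ Z, zetaPole ρ = 0) {s : ℂ} (hs : 1 < s.re) :
    LSeries (aZ Z) s = AZ (hline Z) Z s := by
  have hs1 : s ≠ 1 := by
    intro h
    rw [h, one_re] at hs
    exact lt_irrefl _ hs
  rw [as_ser Z hZ hs]
  have h1 : LSeries (fun n => (ArithmeticFunction.vonMangoldt n : ℂ)) s =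
      -(deriv zetaPole s / zetaPole s) + 1 / (s - 1) := by
    rw [neg_logDeriv_zetaPole hs]
    ring
  have h2 : ∑ ρ ∈ Z, (zord ρ : ℂ) * riemannZeta (s - ρ + 1) =
      ∑ ρ ∈ Z, (zord ρ : ℂ) / (s - ρ) + ∑ ρ ∈ Z, (zord ρ : ℂ) * e0 (s - ρ + 1) := by
    rw [← Finset.sum_add_distrib]
    refine Finset.sum_congr rfl fun ρ hρ => ?_
    have hne : s - ρ + 1 ≠ 1 := by
      intro h
      have h4 : (s - ρ + 1).re = 1 := by rw [h, one_re]
      rw [add_re, sub_re, one_re] at h4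
      linarith [as_re hZ hρ]
    rw [e0_eq hne, add_sub_cancel_right]
    ring
  rw [h1, h2, e0_eq hs1]
  unfold AZ hline
  ring

private theorem as_zeta : ∃ M : ℝ, 0 ≤ M ∧ ∀ (c : ℝ) (w : ℂ), 1 < c → c ≤ 2 → c ≤ w.re →
    ‖riemannZeta w‖ ≤ M / (c - 1) := by
  obtain ⟨M, hM⟩ := (isCompact_Icc (a := (1 : ℝ)) (b := 2)).exists_bound_of_continuousOn
    (f := fun x : ℝ => zetaPole (x : ℂ))
    ((zetaPole_differentiable.continuous.comp continuous_ofReal).continuousOn)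
  refine ⟨M, (norm_nonneg _).trans (hM 1 ⟨le_rfl, by norm_num⟩), fun c w h1 h2 h3 => ?_⟩
  refine (norm_riemannZeta_le h1 h3).trans ?_
  have h4 : ((∑' n : ℕ, 1 / (n : ℝ) ^ c : ℝ) : ℂ) = riemannZeta c := by
    rw [zeta_eq_tsum_one_div_nat_cpow (by simpa using h1), ofReal_tsum]
    refine tsum_congr fun n => ?_
    rw [ofReal_div, ofReal_one, ofReal_cpow (Nat.cast_nonneg n), ofReal_natCast]
  have h5 : ‖riemannZeta c‖ = ∑' n : ℕ, 1 / (n : ℝ) ^ c := by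
    rw [← h4, norm_real, Real.norm_of_nonneg (tsum_nonneg fun n => by positivity)]
  rw [← h5, le_div_iff₀ (by linarith)]
  have h6 := hM c ⟨h1.le, h2⟩
  have hc1 : (c : ℂ) ≠ 1 := by
    intro h
    have h8 : c = 1 := by exact_mod_cast h
    linarith
  have h7 : ‖(c : ℂ) - 1‖ = c - 1 := by
    rw [← ofReal_one, ← ofReal_sub, norm_real, Real.norm_of_nonneg (by linarith)]
  simp only [zetaPole_of_ne hc1, norm_mul, h7] at h6
  linarith

theorem aZ_bound : ∃ C : ℝ, 1 ≤ C ∧ ∀ (Z : Finset ℂ) (c y : ℝ), (∀ ρ ∈ Z, zetaPole ρ = 0) → 1 < c →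
    c ≤ 2 → ‖LSeries (aZ Z) (c + y * I)‖ ≤ C * (1 + mul Z) / (c - 1) := by
  obtain ⟨M, hM0, hM⟩ := as_zeta
  obtain ⟨C0, hC0, hlow⟩ := Pool.Agent.H76.LF.lowA
  refine ⟨1 + C0 + M, by linarith, ?_⟩
  intro Z c y hZ hc hc2
  have hre : ((c : ℂ) + y * I).re = c := by simp
  have hs : 1 < ((c : ℂ) + y * I).re := by rw [hre]; exact hc
  have hcp : 0 < c - 1 := by linarith
  rw [as_ser Z hZ hs]
  have h1 : ‖LSeries (fun n => (ArithmeticFunction.vonMangoldt n : ℂ)) ((c : ℂ) + y * I)‖ ≤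
      (1 + C0) / (c - 1) := by
    have h2 := (hlow (c - 1) hcp (by linarith)).1 y
    have e1 : (((1 + (c - 1) : ℝ)) : ℂ) + y * I = (c : ℂ) + y * I := by
      push_cast
      ring
    rw [e1] at h2
    rw [ArithmeticFunction.LSeries_vonMangoldt_eq_deriv_riemannZeta_div hs, neg_div, norm_neg]
    refine h2.trans ?_
    rw [add_div]
    have h3 : C0 ≤ C0 / (c - 1) := by
      rw [le_div_iff₀ hcp]
      nlinarith
    linarith
  have h2 : ‖riemannZeta ((c : ℂ) + y * I)‖ ≤ M / (c - 1) := hM c _ hc hc2 hre.ge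
  have h3 : ‖∑ ρ ∈ Z, (zord ρ : ℂ) * riemannZeta ((c : ℂ) + y * I - ρ + 1)‖ ≤
      mul Z * (M / (c - 1)) := by
    refine (norm_sum_le _ _).trans ?_
    unfold mul
    rw [Nat.cast_sum, Finset.sum_mul]
    refine Finset.sum_le_sum fun ρ hρ => ?_
    rw [norm_mul, Complex.norm_natCast]
    refine mul_le_mul_of_nonneg_left (hM c _ hc hc2 ?_) (Nat.cast_nonneg _)
    rw [add_re, sub_re, hre, one_re]
    linarith [as_re hZ hρ]
  have h4 : ‖LSeries (fun n => (ArithmeticFunction.vonMangoldt n : ℂ)) ((c : ℂ) + y * I) -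
      riemannZeta ((c : ℂ) + y * I)‖ ≤ (1 + C0) / (c - 1) + M / (c - 1) :=
    (norm_sub_le _ _).trans (add_le_add h1 h2)
  refine (norm_add_le _ _).trans ((add_le_add h4 h3).trans ?_)
  have h5 : (1 + C0 + M) * (1 + (mul Z : ℝ)) / (c - 1) =
      ((1 + C0) / (c - 1) + M / (c - 1) + mul Z * (M / (c - 1))) + mul Z * ((1 + C0) / (c - 1)) := by
    ring
  have h6 : 0 ≤ (mul Z : ℝ) * ((1 + C0) / (c - 1)) := by positivity
  rw [h5]
  linarith

end Pool.Agent.H48.LDP
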