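import Mathlib
import Pool.Agent.H48.LDP.Defs

/-!
# HZ: `hline Z` extends holomorphically over the zeros in `Z`

PROOF.  `H s := limUnder (𝓝[≠] s) (hline Z)`.  If `zetaPole s ≠ 0` (so `s ∉ Z`), `hline Z` is analytic at `s`, so
`H = hline Z` near `s` (also at the points near `s`, where `zetaPole ≠ 0` too).  If `s ∈ Z`: `zetaPole = (z-s)^m g`, `g`
analytic, `g s ≠ 0`, `m = zord s` near `s` (`AnalyticAt.analyticOrderNatAt` API; see `order_eq_of_factor` in
`H6/Win/LocLog.lean`; the order is finite because `zetaPole` is not identically `0`), so for `z ≠ s` near `s`: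
`zetaPole'/zetaPole = m/(z-s) + g'/g`, `hline Z z = -g'/g (z) + ∑_{ρ ∈ Z, ρ ≠ s} zord ρ/(z-ρ) =: φ z`, `φ` analytic at
`s`; therefore `H = φ` near `s`.  See also the proof of `exists_H` in `H6/Win/Hfun.lean`.  About 120 lines.
-/

set_option autoImplicit false

open Complex

namespace Pool.Agent.H48.LDP

open Pool.Agent.H6 Pool.Agent.H6.Win Filter Topology

private lemma hz_ne (s : ℂ) : ∀ᶠ z in 𝓝[≠] s, zetaPole z ≠ 0 := by
  rcases (zetaPole_analyticAt s).eventually_eq_zero_or_eventually_ne_zero with h | h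
  · exfalso
    have h3 := (zetaPole_differentiable.differentiableOn.analyticOnNhd
      isOpen_univ).eqOn_zero_of_preconnected_of_eventuallyEq_zero isPreconnected_univ
      (Set.mem_univ s) h
    exact zetaPole_ne_zero_of_one_le (s := 2) (by simp) (h3 (Set.mem_univ 2))
  · exact h

/-- the limit function agrees near `s` with every analytic function that agrees with `h` off `s` -/
private lemma hz_lim (h φ : ℂ → ℂ) {s : ℂ} (hφ : AnalyticAt ℂ φ s) (he : ∀ᶠ z in 𝓝[≠] s, h z = φ z) :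
    (fun z => limUnder (𝓝[≠] z) h) =ᶠ[𝓝 s] φ := by
  have h1 : ∀ᶠ z in 𝓝 s, z ≠ s → h z = φ z := by
    rw [eventually_nhdsWithin_iff] at he
    exact he
  filter_upwards [h1.eventually_nhds, hφ.eventually_analyticAt] with y hy hφy
  have h2 : Tendsto φ (𝓝[≠] y) (𝓝 (φ y)) := hφy.continuousAt.tendsto.mono_left nhdsWithin_le_nhds
  refine Tendsto.limUnder_eq (h2.congr' ?_)
  have h3 : ∀ᶠ z in 𝓝[≠] y, z ≠ s := by
    rcases eq_or_ne y s with h4 | h4
    · rw [h4]
      exact self_mem_nhdsWithin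
    · exact (eventually_ne_nhds h4).filter_mono nhdsWithin_le_nhds
  filter_upwards [h3, hy.filter_mono nhdsWithin_le_nhds] with z hz1 hz2
  exact (hz2 hz1).symm

/-- the sum over the zeros other than `s` is analytic at `s` -/
private lemma hz_sum (Z : Finset ℂ) {s : ℂ} (hs : s ∉ Z) :
    AnalyticAt ℂ (fun z => ∑ ρ ∈ Z, (zord ρ : ℂ) / (z - ρ)) s := by
  refine Finset.analyticAt_fun_sum _ fun ρ hρ => ?_
  refine analyticAt_const.div (analyticAt_id.sub analyticAt_const) ?_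
  intro h0
  apply hs
  have : s = ρ := sub_eq_zero.1 h0
  rwa [this]

/-- at a point where `zetaPole` does not vanish -/
private lemma hz_reg (Z : Finset ℂ) (hZ : ∀ ρ ∈ Z, zetaPole ρ = 0) {s : ℂ} (hs : zetaPole s ≠ 0) :
    AnalyticAt ℂ (hline Z) s := by
  have h1 : s ∉ Z := fun h => hs (hZ s h)
  have h2 : AnalyticAt ℂ (fun z => deriv zetaPole z / zetaPole z) s :=
    (zetaPole_analyticAt s).deriv.div (zetaPole_analyticAt s) hs
  exact h2.neg.add (hz_sum Z h1)

/-- at a zero -/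
private lemma hz_zero (Z : Finset ℂ) {s : ℂ} (hs : s ∈ Z) :
    ∃ φ : ℂ → ℂ, AnalyticAt ℂ φ s ∧ ∀ᶠ z in 𝓝[≠] s, hline Z z = φ z := by
  have han := zetaPole_analyticAt s
  have hfin : analyticOrderAt zetaPole s ≠ ⊤ := by
    rw [ne_eq, analyticOrderAt_eq_top]
    intro h
    have h1 := hz_ne s
    have h2 : ∀ᶠ z in 𝓝[≠] s, zetaPole z = 0 := h.filter_mono nhdsWithin_le_nhds
    obtain ⟨z, hz1, hz2⟩ := (h1.and h2).exists
    exact hz1 hz2
  obtain ⟨g, hg, hg0, hgz⟩ := han.analyticOrderAt_ne_top.1 hfin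
  refine ⟨fun z => -(deriv g z / g z) + ∑ ρ ∈ Z.erase s, (zord ρ : ℂ) / (z - ρ), ?_, ?_⟩
  · exact (hg.deriv.div hg hg0).neg.add (hz_sum _ (Finset.notMem_erase s Z))
  · have e1 : ∀ᶠ z in 𝓝 s, zetaPole =ᶠ[𝓝 z] fun z => (z - s) ^ analyticOrderNatAt zetaPole s • g z :=
      hgz.eventually_nhds
    have e2 : ∀ᶠ z in 𝓝 s, g z ≠ 0 := hg.continuousAt.eventually_ne hg0
    have e3 : ∀ᶠ z in 𝓝 s, AnalyticAt ℂ g z := hg.eventually_analyticAt
    filter_upwards [self_mem_nhdsWithin, e1.filter_mono nhdsWithin_le_nhds,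
      e2.filter_mono nhdsWithin_le_nhds, e3.filter_mono nhdsWithin_le_nhds] with z hzs hz1 hz2 hz3
    have hzs' : z - s ≠ 0 := sub_ne_zero.2 hzs
    set n : ℕ := analyticOrderNatAt zetaPole s with hn
    have h1 : deriv zetaPole z / zetaPole z = (n : ℂ) / (z - s) + deriv g z / g z := by
      have h2 : deriv zetaPole z / zetaPole z = logDeriv (fun z => (z - s) ^ n * g z) z := by
        rw [logDeriv_apply, hz1.deriv_eq, hz1.eq_of_nhds]
        simp only [smul_eq_mul]
      have h4 : (fun z : ℂ => (z - s) ^ n) z ≠ 0 := pow_ne_zero n hzs'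
      have h5 : DifferentiableAt ℂ (fun z : ℂ => (z - s) ^ n) z := by fun_prop
      have h6 := logDeriv_mul (f := fun z : ℂ => (z - s) ^ n) (g := g) z h4 hz2 h5 hz3.differentiableAt
      have h7 := logDeriv_fun_pow (f := fun z : ℂ => z - s) (x := z) (by fun_prop) n
      have h8 : logDeriv (fun z : ℂ => z - s) z = 1 / (z - s) := by
        rw [logDeriv_apply, deriv_sub_const, deriv_id'']
      rw [h2, h6, h7, h8, logDeriv_apply]
      ring
    have h3 : ∑ ρ ∈ Z, (zord ρ : ℂ) / (z - ρ) =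
        (n : ℂ) / (z - s) + ∑ ρ ∈ Z.erase s, (zord ρ : ℂ) / (z - ρ) := by
      rw [← Finset.add_sum_erase Z _ hs]
      rfl
    rw [hline, h1, h3]
    ring

theorem hz (Z : Finset ℂ) (hZ : ∀ ρ ∈ Z, zetaPole ρ = 0) : ∃ H : ℂ → ℂ,
    (∀ s : ℂ, zetaPole s ≠ 0 → H s = hline Z s) ∧
    ∀ s : ℂ, (zetaPole s = 0 → s ∈ Z) → DifferentiableAt ℂ H s := by
  refine ⟨fun z => limUnder (𝓝[≠] z) (hline Z), fun s hs => ?_, fun s hs => ?_⟩
  · exact (hz_lim (hline Z) (hline Z) (hz_reg Z hZ hs) (Eventually.of_forall fun _ => rfl)).eq_of_nhds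
  · by_cases h0 : zetaPole s = 0
    · obtain ⟨φ, h1, h2⟩ := hz_zero Z (hs h0)
      exact (hz_lim (hline Z) φ h1 h2).differentiableAt_iff.2 h1.differentiableAt
    · have h1 := hz_reg Z hZ h0
      exact (hz_lim (hline Z) (hline Z) h1 (Eventually.of_forall fun _ => rfl)).differentiableAt_iff.2
        h1.differentiableAt

end Pool.Agent.H48.LDP
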