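import Mathlib
import Pool.Agent.H48.LDP.Defs

/-!
# LDb: the logarithmic derivative away from the zeros

PROOF.  `zeta_loc` (`H6/Win/ZetaLoc.lean`) with `σ1 = 5/8`, `σ2 = 3/4`, `t = s.im`: `s ∈ closedBall (2 + it) (5/4)` as
`‖s - (2+it)‖ = |2 - s.re|` (for `s.re ≤ 2`), and `‖∑ zord u/(s-u)‖ ≤ ∑ zord u/δ ≤ C log/δ`.  About 40 lines.
-/

set_option autoImplicit false

open Complex

namespace Pool.Agent.H48.LDP

open Pool.Agent.H6 Pool.Agent.H6.Win

theorem ldb : ∃ C : ℝ, 1 ≤ C ∧ ∀ (s : ℂ) (δ : ℝ), 3 / 4 ≤ s.re → s.re ≤ 2 → 0 < δ → δ ≤ 1 →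
    (∀ u : ℂ, zetaPole u = 0 → δ ≤ ‖s - u‖) →
    ‖deriv zetaPole s / zetaPole s‖ ≤ C * Real.log (|s.im| + 2) / δ := by
  obtain ⟨C, hC, hloc⟩ := zeta_loc (σ1 := 5 / 8) (σ2 := 3 / 4) (by norm_num) (by norm_num)
    (by norm_num)
  refine ⟨2 * C + 1, by linarith, fun s δ h1 h2 hδ hδ1 hu => ?_⟩
  obtain ⟨S, hS1, -, hS3, hS4⟩ := hloc s.im
  have hl : 0 < Real.log (|s.im| + 2) := log_two_add_pos _
  have hne : zetaPole s ≠ 0 := by
    intro h
    have := hu s h
    rw [sub_self, norm_zero] at this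
    linarith
  have hmem : s ∈ Metric.closedBall ((2:ℂ) + s.im * I) (2 - 3 / 4) := by
    rw [Metric.mem_closedBall, dist_eq_norm]
    have e : s - ((2:ℂ) + s.im * I) = ((s.re - 2 : ℝ) : ℂ) := by
      apply Complex.ext <;> simp
    rw [e, Complex.norm_real, Real.norm_eq_abs, abs_le]
    constructor <;> linarith
  have hmain := hS4 s hmem hne
  have hsum : ‖∑ u ∈ S, (zord u : ℂ) / (s - u)‖ ≤ C * Real.log (|s.im| + 2) / δ := by
    calc ‖∑ u ∈ S, (zord u : ℂ) / (s - u)‖ ≤ ∑ u ∈ S, ‖(zord u : ℂ) / (s - u)‖ :=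
          norm_sum_le _ _
      _ ≤ ∑ u ∈ S, (zord u : ℝ) / δ := by
          refine Finset.sum_le_sum fun u hu' => ?_
          have hz := ((hS1 u).1 hu').2
          have hd := hu u hz
          rw [norm_div, Complex.norm_natCast]
          gcongr
      _ = (∑ u ∈ S, (zord u : ℝ)) / δ := by rw [Finset.sum_div]
      _ ≤ C * Real.log (|s.im| + 2) / δ := by gcongr
  have h3 : C * Real.log (|s.im| + 2) ≤ C * Real.log (|s.im| + 2) / δ := by
    rw [le_div_iff₀ hδ]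
    have : 0 ≤ C * Real.log (|s.im| + 2) := by positivity
    nlinarith
  have h4 : 0 ≤ Real.log (|s.im| + 2) / δ := by positivity
  calc ‖deriv zetaPole s / zetaPole s‖
      = ‖(deriv zetaPole s / zetaPole s - ∑ u ∈ S, (zord u : ℂ) / (s - u)) +
          ∑ u ∈ S, (zord u : ℂ) / (s - u)‖ := by rw [sub_add_cancel]
    _ ≤ ‖deriv zetaPole s / zetaPole s - ∑ u ∈ S, (zord u : ℂ) / (s - u)‖ +
          ‖∑ u ∈ S, (zord u : ℂ) / (s - u)‖ := norm_add_le _ _
    _ ≤ C * Real.log (|s.im| + 2) / δ + C * Real.log (|s.im| + 2) / δ :=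
          add_le_add (hmain.trans h3) hsum
    _ ≤ (2 * C + 1) * Real.log (|s.im| + 2) / δ := by
          have e : (2 * C + 1) * Real.log (|s.im| + 2) / δ =
              C * Real.log (|s.im| + 2) / δ + C * Real.log (|s.im| + 2) / δ +
                Real.log (|s.im| + 2) / δ := by ring
          rw [e]
          linarith

end Pool.Agent.H48.LDP
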