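import Mathlib
import Pool.Agent.H6.PerronR
import Pool.Agent.H76.PS.KernB
import Pool.Agent.H6.LiouLoc
import Pool.Agent.H48.LDP.AS
import Pool.Agent.H48.LDP.HZ
import Pool.Agent.H48.LDP.LDb

/-!
# Shf: the smoothed sum of `aZ Z`, by Cauchy's theorem

PROOF (compare `shiftA` in `H76/PS/ShiftA.lean`, `KernB.lean`: bounds of `kernR`).  `perronR` (`H6/PerronR.lean`) with
`c = 1 + 1/log X2` (`≤ 2`), `aZ_summable`, `aZ_LSeries`.  `H` from `hz`; `A = AZ H Z`; on `Re s = c` it is the Dirichlet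
series.  `‖kernR X1 X2 s‖ ≤ 2 X2^(Re s + 1)/‖s‖²` for `Re s > 0`.
Tails `|y| ≥ T`: `aZ_bound`: `≤ 2 e X2² C (1+m) log X2 · 2/T`, `m = mul Z`.
Cauchy on `[σ, c] × [-T, T]` (`Complex.integral_boundary_rect_eq_zero_of_differentiableOn`): `A` is differentiable there
(`hz`, `e0_diff`; every zero of `zetaPole` in the closed rectangle is in `Z`).  On the left and horizontal sides
(`OnP σ T s`): `‖hline Z s‖ ≤ C log (T+2)/δ + m/δ` (`ldb`, `‖s-ρ‖ ≥ δ`), `‖e0‖ ≤ C (2T + 6)` (`Re (s-ρ+1) ≥ σ ≥ 1/2`), so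
`‖A s‖ ≤ C (1+m) T/δ`.  Horizontal sides: `≤ 2 e X2²/T² · C (1+m) T/δ`.  Left side: `≤ 2 X2^(σ+1) C (1+m) (T/δ) ∫ dy/|σ+iy|²`,
`∫ ≤ 8`.  About 250 lines.
-/

set_option autoImplicit false

open Complex

namespace Pool.Agent.H48.LDP

open Pool.Agent.H6 Pool.Agent.H6.Win Pool.Agent.H76

private lemma tail_inv {V : ℝ} (hV : 0 < V) {g : ℝ → ℂ} {B : ℝ}
    (hg : MeasureTheory.Integrable g) (hb : ∀ y : ℝ, V < |y| → ‖g y‖ ≤ B * (y ^ 2)⁻¹) :
    ‖∫ y, g y‖ ≤ ‖∫ y in (-V)..V, g y‖ + 2 * B / V := by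
  have hpos : ∫ y in Set.Ioi V, (y ^ 2)⁻¹ = V⁻¹ := by
    have h := integral_Ioi_rpow_of_lt (a := -2) (by norm_num) hV
    have e : ∀ y ∈ Set.Ioi V, (y ^ 2)⁻¹ = y ^ (-2 : ℝ) := by
      intro y hy
      have hy0 : 0 < y := hV.trans hy
      rw [Real.rpow_neg hy0.le]
      norm_num
    rw [MeasureTheory.setIntegral_congr_fun measurableSet_Ioi e, h]
    norm_num
    rw [Real.rpow_neg_one]
  have hi : MeasureTheory.IntegrableOn (fun y : ℝ => (y ^ 2)⁻¹) (Set.Ioi V) := by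
    have h := integrableOn_Ioi_rpow_of_lt (a := -2) (by norm_num) hV
    refine h.congr_fun (fun y hy => ?_) measurableSet_Ioi
    have hy0 : 0 < y := hV.trans hy
    simp only
    rw [Real.rpow_neg hy0.le]
    norm_num
  have key : ∀ k : ℝ → ℂ, MeasureTheory.Integrable k → (∀ y : ℝ, V < |y| → ‖k y‖ ≤ B * (y ^ 2)⁻¹) →
      ‖∫ y in Set.Ioi V, k y‖ ≤ B / V := by
    intro k hk hkb
    have := MeasureTheory.norm_integral_le_of_norm_le (μ := MeasureTheory.volume.restrict (Set.Ioi V))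
      (f := k) (g := fun y => B * (y ^ 2)⁻¹) (hi.const_mul B) ?_
    · refine this.trans (le_of_eq ?_)
      rw [MeasureTheory.integral_const_mul, hpos]
      rfl
    · rw [MeasureTheory.ae_restrict_iff' measurableSet_Ioi]
      refine Filter.Eventually.of_forall fun y hy => ?_
      exact hkb y (lt_of_lt_of_le hy (le_abs_self y))
  have h1 := key g hg hb
  have h2 : ‖∫ y in Set.Iic (-V), g y‖ ≤ B / V := by
    have e : ∫ y in Set.Iic (-V), g y = ∫ y in Set.Ioi V, g (-y) := by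
      have := integral_comp_neg_Ioi V g
      exact this.symm
    rw [e]
    refine key _ hg.comp_neg fun y hy => ?_
    have := hb (-y) (by rwa [abs_neg])
    simpa using this
  have h3 : ∫ y, g y = (∫ y in Set.Iic (-V), g y) + (∫ y in (-V)..V, g y) +
      ∫ y in Set.Ioi V, g y := by
    have e1 := intervalIntegral.integral_Iic_add_Ioi (b := V) hg.integrableOn hg.integrableOn
    have e2 := intervalIntegral.integral_Iic_sub_Iic (a := -V) (b := V) hg.integrableOn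
      hg.integrableOn
    rw [← e1, ← e2]
    ring
  rw [h3]
  refine (norm_add₃_le).trans ?_
  have : 2 * B / V = B / V + B / V := by ring
  rw [this]
  linarith

theorem shf : ∃ C : ℝ, 1 ≤ C ∧ ∀ (X1 X2 σ T δ : ℝ) (Z : Finset ℂ) (K : ℕ), 3 ≤ X1 → X1 ≤ X2 →
    X2 ≤ K → 3 / 4 ≤ σ → σ ≤ 1 → 2 ≤ T → 0 < δ → δ ≤ 1 →
    (∀ ρ ∈ Z, zetaPole ρ = 0 ∧ σ ≤ ρ.re ∧ |ρ.im| ≤ T) →
    (∀ u : ℂ, zetaPole u = 0 → σ ≤ u.re → |u.im| ≤ T → u ∈ Z) →
    (∀ s u : ℂ, OnP σ T s → zetaPole u = 0 → δ ≤ ‖s - u‖) →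
    ‖∑ n ∈ Finset.Icc 1 K, aZ Z n * ((max (X2 - n) 0 - max (X1 - n) 0 : ℝ) : ℂ)‖ ≤
      C * (1 + mul Z) / δ * (X2 ^ 2 * Real.log X2 / T + X2 ^ (σ + 1) * T) := by
  obtain ⟨C1, hC1, hldb⟩ := ldb
  obtain ⟨C2, hC2, he0⟩ := e0_bound
  obtain ⟨C4, hC4, hab⟩ := aZ_bound
  set C3 : ℝ := 2 * C1 + 4 * C2 + 1 with hC3
  have hC3p : 1 ≤ C3 := by rw [hC3]; linarith
  refine ⟨15 * C3 + 12 * C4, by linarith, ?_⟩
  intro X1 X2 σ T δ Z K hX1 hX12 hXK hσ hσ1 hT hδ hδ1 hZ hall hfar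
  have hX2 : 3 ≤ X2 := hX1.trans hX12
  have hX2p : 0 < X2 := by linarith
  have hX1p : 0 < X1 := by linarith
  have hZ0 : ∀ ρ ∈ Z, zetaPole ρ = 0 := fun ρ hρ => (hZ ρ hρ).1
  have hZ1 : ∀ ρ ∈ Z, ρ.re < 1 := by
    intro ρ hρ
    by_contra h
    exact zetaPole_ne_zero_of_one_le (not_lt.1 h) (hZ0 ρ hρ)
  obtain ⟨H, hH1, hH2⟩ := hz Z hZ0
  have he1 : Real.exp 1 < 3 := lt_trans Real.exp_one_lt_d9 (by norm_num)
  have hlX : 1 ≤ Real.log X2 := by
    rw [Real.le_log_iff_exp_le hX2p]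
    linarith
  have hlXp : 0 < Real.log X2 := by linarith
  set c : ℝ := 1 + 1 / Real.log X2 with hc
  have hc1 : 1 < c := by
    have : 0 < 1 / Real.log X2 := by positivity
    rw [hc]; linarith
  have hc2 : c ≤ 2 := by
    have : 1 / Real.log X2 ≤ 1 := by
      rw [div_le_one hlXp]; exact hlX
    rw [hc]; linarith
  have hXc : X2 ^ c = Real.exp 1 * X2 := by
    rw [hc, Real.rpow_add hX2p, Real.rpow_one, Real.rpow_def_of_pos hX2p,
      mul_one_div_cancel hlXp.ne']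
    ring
  set M : ℝ := 1 + (mul Z : ℝ) with hM
  have hm0 : (0 : ℝ) ≤ (mul Z : ℝ) := Nat.cast_nonneg _
  have hM1 : 1 ≤ M := by rw [hM]; linarith
  have hTp : 0 < T := by linarith
  set Φ : ℂ → ℂ := fun w => kernR X1 X2 w * AZ H Z w with hΦ
  have hre : ∀ x y : ℝ, ((x : ℂ) + y * I).re = x := by intro x y; simp
  have him : ∀ x y : ℝ, ((x : ℂ) + y * I).im = y := by intro x y; simp
  have hzne : ∀ s : ℂ, 1 < s.re → zetaPole s ≠ 0 := fun s hs => zetaPole_ne_zero_of_one_le hs.le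
  have hLA : ∀ s : ℂ, 1 < s.re → LSeries (aZ Z) s = AZ H Z s := by
    intro s hs
    rw [aZ_LSeries Z hZ0 hs]
    unfold AZ
    rw [hH1 s (hzne s hs)]
  -- Perron
  have hP := perronR (a := aZ Z) (c := c) (by linarith) (aZ_summable Z hZ0 (by simpa using hc1))
    hX1p hX12 hXK
  have hPΦ : ∀ y : ℝ, kernR X1 X2 ((c : ℂ) + y * I) * LSeries (aZ Z) ((c : ℂ) + y * I) =
      Φ ((c : ℂ) + y * I) := by
    intro y
    rw [hLA _ (by rw [hre]; exact hc1)]
  simp_rw [hPΦ] at hP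
  rw [hP]
  -- differentiability
  have hAd : ∀ s : ℂ, (zetaPole s = 0 → s ∈ Z) → DifferentiableAt ℂ (AZ H Z) s := by
    intro s hs
    have a1 := hH2 s hs
    have a2 : DifferentiableAt ℂ e0 s := e0_diff s
    have a3 : ∀ ρ : ℂ, DifferentiableAt ℂ (fun s : ℂ => (zord ρ : ℂ) * e0 (s - ρ + 1)) s := by
      intro ρ
      have b1 : Differentiable ℂ (fun s : ℂ => e0 (s - ρ + 1)) :=
        e0_diff.comp (by fun_prop)
      exact (b1 s).const_mul _
    have a4 : DifferentiableAt ℂ (fun s : ℂ => ∑ ρ ∈ Z, (zord ρ : ℂ) * e0 (s - ρ + 1)) s :=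
      DifferentiableAt.fun_sum fun ρ _ => a3 ρ
    exact (a1.sub a2).add a4
  -- integrability on the line `re = c`
  have hkint : MeasureTheory.Integrable fun y : ℝ ↦ kernR X1 X2 ((c : ℂ) + y * I) := by
    have i1 := integrable_kern_part (c := c) (by linarith) hX2p 1
    have i2 := integrable_kern_part (c := c) (by linarith) hX1p 1
    refine (i1.sub i2).congr (Filter.Eventually.of_forall fun y ↦ ?_)
    simp only [kernR, Pi.sub_apply]
    push_cast
    rw [one_cpow]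
    ring
  have hlinec : ∀ y : ℝ, ‖AZ H Z ((c : ℂ) + y * I)‖ ≤ C4 * M * Real.log X2 := by
    intro y
    have h1 := hab Z c y hZ0 hc1 hc2
    rw [hLA _ (by rw [hre]; exact hc1)] at h1
    refine h1.trans (le_of_eq ?_)
    rw [hc, add_sub_cancel_left, div_div_eq_mul_div, div_one]
  have hcontc : Continuous fun y : ℝ => AZ H Z ((c : ℂ) + y * I) := by
    rw [continuous_iff_continuousAt]
    intro y
    have hgt : 1 < ((c : ℂ) + y * I).re := by rw [hre]; exact hc1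
    have h1 := hAd ((c : ℂ) + y * I) (fun h => absurd h (hzne _ hgt))
    exact ContinuousAt.comp (g := AZ H Z) (f := fun y : ℝ => (c : ℂ) + y * I) h1.continuousAt
      (by fun_prop)
  have hint : MeasureTheory.Integrable fun y : ℝ => Φ ((c : ℂ) + y * I) := by
    refine hkint.mul_bdd (c := C4 * M * Real.log X2) hcontc.aestronglyMeasurable ?_
    exact Filter.Eventually.of_forall fun y => hlinec y
  -- the tail
  have htail : ∀ y : ℝ, T < |y| → ‖Φ ((c : ℂ) + y * I)‖ ≤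
      (2 * (Real.exp 1 * X2 ^ 2) * (C4 * M * Real.log X2)) * (y ^ 2)⁻¹ := by
    intro y hy
    have hy0 : 0 < |y| := hTp.trans hy
    have hwn : |y| ≤ ‖(c : ℂ) + y * I‖ := by
      have := abs_im_le_norm ((c : ℂ) + y * I)
      rwa [him] at this
    have k2 := PS.kern2 hX1p hX12 (w := (c : ℂ) + y * I) (by rw [hre]; linarith)
    rw [hre, Real.rpow_add hX2p, hXc, Real.rpow_one] at k2
    have k3 : ‖kernR X1 X2 ((c : ℂ) + y * I)‖ ≤ 2 * (Real.exp 1 * X2 ^ 2) * (y ^ 2)⁻¹ := by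
      refine k2.trans ?_
      rw [← div_eq_mul_inv, ← sq_abs y]
      have : 2 * (Real.exp 1 * X2 * X2) = 2 * (Real.exp 1 * X2 ^ 2) := by ring
      rw [this]
      gcongr
    simp only [hΦ]
    rw [norm_mul]
    calc _ ≤ (2 * (Real.exp 1 * X2 ^ 2) * (y ^ 2)⁻¹) * (C4 * M * Real.log X2) := by
          gcongr
          exact hlinec y
      _ = _ := by ring
  have h1 := tail_inv hTp hint htail
  -- the sides
  have hA : ∀ s : ℂ, OnP σ T s → ‖AZ H Z s‖ ≤ C3 * M * (T / δ) := by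
    intro s hs
    have hsre : σ ≤ s.re ∧ s.re ≤ 2 := by
      rcases hs with h | h
      · rw [h.1]; exact ⟨le_rfl, by linarith⟩
      · exact ⟨h.1, h.2.1⟩
    have hsim : |s.im| ≤ T := by
      rcases hs with h | h
      · exact h.2
      · exact h.2.2.le
    have hd : ∀ u : ℂ, zetaPole u = 0 → δ ≤ ‖s - u‖ := fun u hu => hfar s u hs hu
    have hne : zetaPole s ≠ 0 := by
      intro h
      have := hd s h
      rw [sub_self, norm_zero] at this
      linarith
    have g1 := hldb s δ (by linarith) hsre.2 hδ hδ1 hd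
    have hlog : Real.log (|s.im| + 2) ≤ 2 * T := by
      have := Real.log_le_sub_one_of_pos (by positivity : 0 < |s.im| + 2)
      linarith
    have g2 : ‖deriv zetaPole s / zetaPole s‖ ≤ 2 * C1 * (T / δ) := by
      refine g1.trans ?_
      calc C1 * Real.log (|s.im| + 2) / δ ≤ C1 * (2 * T) / δ := by gcongr
        _ = _ := by ring
    have g3 : ‖∑ ρ ∈ Z, (zord ρ : ℂ) / (s - ρ)‖ ≤ (mul Z : ℝ) / δ := by
      refine (norm_sum_le _ _).trans ?_
      unfold mul
      push_cast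
      rw [Finset.sum_div]
      refine Finset.sum_le_sum fun ρ hρ => ?_
      rw [norm_div, norm_natCast]
      exact div_le_div_of_nonneg_left (Nat.cast_nonneg _) hδ (hd ρ (hZ0 ρ hρ))
    have g4 : ‖H s‖ ≤ 2 * C1 * (T / δ) + (mul Z : ℝ) / δ := by
      rw [hH1 s hne]
      unfold hline
      refine (norm_add_le _ _).trans ?_
      rw [norm_neg]
      linarith
    have hsn : ‖s‖ ≤ 2 + T := by
      refine (norm_le_abs_re_add_abs_im s).trans ?_
      rw [abs_of_nonneg (by linarith : 0 ≤ s.re)]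
      linarith
    have g5 : ‖e0 s‖ ≤ C2 * (4 * T) := by
      refine (he0 s (by linarith)).trans ?_
      have : 1 + ‖s‖ ≤ 4 * T := by linarith
      gcongr
    have g6 : ∀ ρ ∈ Z, ‖e0 (s - ρ + 1)‖ ≤ C2 * (4 * T) := by
      intro ρ hρ
      have r1 : (s - ρ + 1).re = s.re - ρ.re + 1 := by simp
      have r2 : (s - ρ + 1).im = s.im - ρ.im := by simp
      have r3 := hZ1 ρ hρ
      have r4 := (hZ ρ hρ).2
      refine (he0 _ (by rw [r1]; linarith)).trans ?_
      have r5 : ‖s - ρ + 1‖ ≤ 3 + 2 * T := by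
        refine (norm_le_abs_re_add_abs_im _).trans ?_
        rw [r1, r2, abs_of_nonneg (by linarith)]
        have := abs_sub s.im ρ.im
        linarith
      have : 1 + ‖s - ρ + 1‖ ≤ 4 * T := by linarith
      gcongr
    have g7 : ‖∑ ρ ∈ Z, (zord ρ : ℂ) * e0 (s - ρ + 1)‖ ≤ (mul Z : ℝ) * (C2 * (4 * T)) := by
      refine (norm_sum_le _ _).trans ?_
      unfold mul
      push_cast
      rw [Finset.sum_mul]
      refine Finset.sum_le_sum fun ρ hρ => ?_
      rw [norm_mul, norm_natCast]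
      exact mul_le_mul_of_nonneg_left (g6 ρ hρ) (Nat.cast_nonneg _)
    have hTδ : T ≤ T / δ := by
      rw [le_div_iff₀ hδ]
      nlinarith
    have hδT : 1 / δ ≤ T / δ := by
      apply div_le_div_of_nonneg_right _ hδ.le
      linarith
    have hmδ : (mul Z : ℝ) / δ ≤ (mul Z : ℝ) * (T / δ) := by
      calc (mul Z : ℝ) / δ = (mul Z : ℝ) * (1 / δ) := by ring
        _ ≤ _ := by gcongr
    unfold AZ
    refine (norm_add_le _ _).trans ?_
    have g8 := norm_sub_le (H s) (e0 s)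
    have g9 : C2 * (4 * T) ≤ 4 * C2 * (T / δ) := by
      calc C2 * (4 * T) = 4 * C2 * T := by ring
        _ ≤ _ := by gcongr
    have g10 : (mul Z : ℝ) * (C2 * (4 * T)) ≤ (mul Z : ℝ) * (4 * C2 * (T / δ)) := by gcongr
    have hT0 : 0 ≤ T / δ := by positivity
    have e : C3 * M * (T / δ) = 2 * C1 * (T / δ) + 2 * C1 * ((mul Z : ℝ) * (T / δ)) +
        4 * C2 * (T / δ) + (mul Z : ℝ) * (4 * C2 * (T / δ)) + T / δ + (mul Z : ℝ) * (T / δ) := by
      rw [hC3, hM]; ring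
    rw [e]
    have p1 : 0 ≤ 2 * C1 * ((mul Z : ℝ) * (T / δ)) := by positivity
    linarith
  -- the rectangle
  have hσc : σ ≤ c := by linarith
  have hdiff : ∀ s : ℂ, σ ≤ s.re → s.re ≤ c → |s.im| ≤ T → DifferentiableAt ℂ Φ s := by
    intro s a1 a2 a3
    exact (PS.kern_diff hX1p hX2p (by linarith)).mul (hAd s (fun h => hall s h a1 a3))
  have hside : ∀ s : ℂ, σ ≤ s.re → s.re ≤ c → |s.im| = T →
      ‖Φ s‖ ≤ 2 * (Real.exp 1 * X2 ^ 2) / T ^ 2 * (C3 * M * (T / δ)) := by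
    intro s a1 a2 a3
    have hs0 : 0 < s.re := by linarith
    have k1 := PS.kern2 hX1p hX12 hs0
    have hsn : T ≤ ‖s‖ := by rw [← a3]; exact abs_im_le_norm s
    have k2 := hA s (Or.inr ⟨a1, by linarith, a3⟩)
    simp only [hΦ]
    rw [norm_mul]
    have k3 : X2 ^ (s.re + 1) ≤ Real.exp 1 * X2 ^ 2 := by
      have : X2 ^ (c + 1) = Real.exp 1 * X2 ^ 2 := by
        rw [Real.rpow_add hX2p, hXc, Real.rpow_one]; ring
      rw [← this]
      exact Real.rpow_le_rpow_of_exponent_le (by linarith) (by linarith)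
    calc _ ≤ (2 * X2 ^ (s.re + 1) / ‖s‖ ^ 2) * (C3 * M * (T / δ)) := by gcongr
      _ ≤ _ := by gcongr
  have h2 := rect_bound hσc hTp.le hdiff hside
  -- the left side
  have hleft : ‖∫ y : ℝ in (-T)..T, Φ ((σ : ℂ) + y * I)‖ ≤
      (2 * X2 ^ (σ + 1) * (16 / 9) * (C3 * M * (T / δ))) * Real.pi := by
    have hpi : ∫ y : ℝ in (-T)..T, (1 + y ^ 2)⁻¹ ≤ Real.pi := by
      rw [integral_inv_one_add_sq]
      have := Real.arctan_lt_pi_div_two T
      have := Real.neg_pi_div_two_lt_arctan (-T)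
      linarith
    refine le_trans ?_ (mul_le_mul_of_nonneg_left hpi (by positivity))
    rw [← intervalIntegral.integral_const_mul]
    refine intervalIntegral.norm_integral_le_of_norm_le (by linarith) ?_ ?_
    · refine Filter.Eventually.of_forall fun y hy => ?_
      have hy' : |y| ≤ T := abs_le.2 ⟨hy.1.le, hy.2⟩
      have k1 := PS.kern2 hX1p hX12 (w := (σ : ℂ) + y * I) (by rw [hre]; linarith)
      have k2 := hA ((σ : ℂ) + y * I) (Or.inl ⟨hre _ _, by rw [him]; exact hy'⟩)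
      rw [hre] at k1
      simp only [hΦ]
      rw [norm_mul]
      have hns : ‖(σ : ℂ) + y * I‖ ^ 2 = σ ^ 2 + y ^ 2 := by
        rw [← Complex.normSq_eq_norm_sq, Complex.normSq_apply, hre, him]; ring
      have k4 : 2 * X2 ^ (σ + 1) / ‖(σ : ℂ) + y * I‖ ^ 2 ≤
          2 * X2 ^ (σ + 1) * (16 / 9) * (1 + y ^ 2)⁻¹ := by
        rw [← div_eq_mul_inv, div_le_div_iff₀ (by rw [hns]; positivity) (by positivity), hns]
        have q1 : 1 + y ^ 2 ≤ (16 / 9) * (σ ^ 2 + y ^ 2) := by nlinarith [sq_nonneg y]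
        have q2 : 0 ≤ 2 * X2 ^ (σ + 1) := by positivity
        calc 2 * X2 ^ (σ + 1) * (1 + y ^ 2) ≤ 2 * X2 ^ (σ + 1) * ((16 / 9) * (σ ^ 2 + y ^ 2)) := by
              gcongr
          _ = _ := by ring
      calc _ ≤ (2 * X2 ^ (σ + 1) * (16 / 9) * (1 + y ^ 2)⁻¹) * (C3 * M * (T / δ)) := by
            gcongr
            exact k1.trans k4
        _ = _ := by ring
    · apply Continuous.intervalIntegrable
      refine Continuous.mul continuous_const (Continuous.inv₀ (by fun_prop) fun y => ?_)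
      positivity
  -- the total
  have hpi : ‖(1 / (2 * Real.pi) : ℂ)‖ ≤ 1 := by
    rw [norm_div, norm_one, norm_mul, norm_real, Real.norm_of_nonneg Real.pi_pos.le]
    simp only [Complex.norm_ofNat]
    rw [div_le_one (by positivity)]
    have := Real.pi_gt_three
    linarith
  rw [norm_mul]
  refine (mul_le_of_le_one_left (norm_nonneg _) hpi).trans ?_
  refine h1.trans ?_
  set P : ℝ := M / δ * (X2 ^ (σ + 1) * T) with hPd
  have hPp : 0 ≤ P := by positivity
  set Q : ℝ := M / δ * (X2 ^ 2 * Real.log X2 / T) with hQ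
  have hQp : 0 ≤ Q := by positivity
  have hQ1 : M / δ * (X2 ^ 2 / T) ≤ Q := by
    rw [hQ]
    have : X2 ^ 2 / T ≤ X2 ^ 2 * Real.log X2 / T := by
      apply div_le_div_of_nonneg_right _ hTp.le
      nlinarith [sq_nonneg X2]
    gcongr
  have hQ2 : M * (X2 ^ 2 * Real.log X2 / T) ≤ Q := by
    rw [hQ]
    have : M ≤ M / δ := by
      rw [le_div_iff₀ hδ]
      nlinarith
    gcongr
  have e1 : (2 * X2 ^ (σ + 1) * (16 / 9) * (C3 * M * (T / δ))) * Real.pi ≤ 15 * C3 * P := by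
    have hpi4 : Real.pi ≤ 4 := Real.pi_le_four
    calc _ = (32 / 9 * Real.pi) * C3 * P := by rw [hPd]; ring
      _ ≤ 15 * C3 * P := by
        gcongr
        linarith
  have e2 : 2 * (2 * (Real.exp 1 * X2 ^ 2) / T ^ 2 * (C3 * M * (T / δ)) * (c - σ)) ≤
      15 * C3 * Q := by
    have a2 : c - σ ≤ 5 / 4 := by linarith
    have a4 : 0 ≤ c - σ := by linarith
    have hC30 : 0 ≤ C3 := by linarith
    calc _ = 4 * Real.exp 1 * (c - σ) * C3 * (M / δ * (X2 ^ 2 / T)) := by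
          field_simp
          ring
      _ ≤ 4 * 3 * (5 / 4) * C3 * Q := by gcongr
      _ = _ := by ring
  have e3 : 2 * (2 * (Real.exp 1 * X2 ^ 2) * (C4 * M * Real.log X2)) / T ≤ 12 * C4 * Q := by
    have hC40 : 0 ≤ C4 := by linarith
    calc 2 * (2 * (Real.exp 1 * X2 ^ 2) * (C4 * M * Real.log X2)) / T
        = 4 * Real.exp 1 * C4 * (M * (X2 ^ 2 * Real.log X2 / T)) := by ring
      _ ≤ 4 * 3 * C4 * Q := by gcongr
      _ = _ := by ring
  calc _ ≤ 15 * C3 * P + 15 * C3 * Q + 12 * C4 * Q := by linarith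
    _ ≤ (15 * C3 + 12 * C4) * (Q + P) := by
        have b1 : 0 ≤ C4 * P := by positivity
        nlinarith
    _ = _ := by rw [hQ, hPd]; ring

end Pool.Agent.H48.LDP
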