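import Mathlib
import Pool.Agent.H48.LDP.AS

/-!
# Uns: removing the smoothing

PROOF.  With `X1 = M`, `X2 = M + h`: `max (X2-n) 0 - max (X1-n) 0 = h` for `n ≤ M`, in `[0, h]` for `M < n ≤ M + h`, and `0`
beyond.  So `h ‖∑_{n ≤ M} a n‖ ≤ ‖smoothed‖ + h ∑_{M < n ≤ M + h} ‖a n‖`, at most `h + 1` terms (`n ≤ K`), each
`≤ log (M+h) + 1 + mul Z` (`aZ_norm`, `vonMangoldt_le_log`).  About 70 lines.
-/

set_option autoImplicit false

open Complex

namespace Pool.Agent.H48.LDP

open Pool.Agent.H6 Pool.Agent.H6.Win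

theorem uns (Z : Finset ℂ) (hZ : ∀ ρ ∈ Z, zetaPole ρ = 0) {M K : ℕ} {h : ℝ} (hM : 1 ≤ M)
    (hh : 0 < h) (hK : M + h ≤ K) :
    ‖∑ n ∈ Finset.Icc 1 M, aZ Z n‖ ≤
      ‖∑ n ∈ Finset.Icc 1 K, aZ Z n *
        ((max ((M + h : ℝ) - n) 0 - max ((M : ℝ) - n) 0 : ℝ) : ℂ)‖ / h +
      (h + 1) * (Real.log (M + h) + 1 + mul Z) := by
  have hM1 : (1 : ℝ) ≤ M := by exact_mod_cast hM
  have hMK : M ≤ K := by
    have h1 : (M : ℝ) ≤ K := by linarith
    exact_mod_cast h1
  set B : ℝ := Real.log (M + h) + 1 + mul Z with hB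
  have hB0 : 0 ≤ B := by
    have h1 : 0 ≤ Real.log (M + h) := Real.log_nonneg (by linarith)
    have h2 : (0 : ℝ) ≤ mul Z := Nat.cast_nonneg _
    linarith
  set w : ℕ → ℝ := fun n => max ((M + h : ℝ) - n) 0 - max ((M : ℝ) - n) 0 with hw
  set S : ℂ := ∑ n ∈ Finset.Icc 1 K, aZ Z n * ((w n : ℝ) : ℂ) with hS
  set A : ℂ := ∑ n ∈ Finset.Icc 1 M, aZ Z n with hA
  set T : ℂ := ∑ n ∈ Finset.Ioc M K, aZ Z n * ((w n : ℝ) : ℂ) with hT
  have e1 : S = A * (h : ℂ) + T := by
    have h1 : Finset.Icc 1 K = Finset.Icc 1 M ∪ Finset.Ioc M K := by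
      ext n
      simp only [Finset.mem_union, Finset.mem_Icc, Finset.mem_Ioc]
      omega
    rw [hS, h1, Finset.sum_union]
    · rw [hA, Finset.sum_mul]
      congr 1
      refine Finset.sum_congr rfl fun n hn => ?_
      have hn' : (n : ℝ) ≤ M := by exact_mod_cast (Finset.mem_Icc.1 hn).2
      have h2 : w n = h := by
        simp only [hw]
        rw [max_eq_left (by linarith), max_eq_left (by linarith)]
        ring
      rw [h2]
    · rw [Finset.disjoint_left]
      intro n h2 h3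
      rw [Finset.mem_Icc] at h2
      rw [Finset.mem_Ioc] at h3
      omega
  -- the terms beyond `M`
  have hterm : ∀ n ∈ Finset.Ioc M K, ‖aZ Z n * ((w n : ℝ) : ℂ)‖ ≤
      if n ∈ Finset.Ioc M (M + ⌊h⌋₊) then h * B else 0 := by
    intro n hn
    have hn0 : M < n := (Finset.mem_Ioc.1 hn).1
    have hn1 : (M : ℝ) < n := by exact_mod_cast hn0
    have hwn : w n = max ((M + h : ℝ) - n) 0 := by
      simp only [hw]
      rw [max_eq_right (a := (M : ℝ) - n) (by linarith), sub_zero]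
    have hw0 : 0 ≤ w n := by
      rw [hwn]
      exact le_max_right _ _
    have hwh : w n ≤ h := by
      rw [hwn]
      exact max_le (by linarith) hh.le
    rw [norm_mul, norm_real, Real.norm_of_nonneg hw0]
    rcases lt_or_ge (n : ℝ) (M + h) with h1 | h1
    · have h2 : n ∈ Finset.Ioc M (M + ⌊h⌋₊) := by
        rw [Finset.mem_Ioc]
        refine ⟨hn0, ?_⟩
        have h3 : n - M ≤ ⌊h⌋₊ := by
          apply Nat.le_floor
          rw [Nat.cast_sub hn0.le]
          linarith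
        omega
      rw [if_pos h2]
      have h3 := aZ_norm Z hZ (n := n) (by omega)
      have h4 : ArithmeticFunction.vonMangoldt n ≤ Real.log n := ArithmeticFunction.vonMangoldt_le_log
      have h5 : Real.log n ≤ Real.log (M + h) := Real.log_le_log (by linarith) h1.le
      have h6 : ‖aZ Z n‖ ≤ B := by linarith
      calc ‖aZ Z n‖ * w n ≤ B * h := mul_le_mul h6 hwh hw0 hB0
        _ = h * B := mul_comm _ _
    · have h2 : w n = 0 := by
        rw [hwn]
        exact max_eq_right (by linarith)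
      rw [h2, mul_zero]
      split_ifs
      · positivity
      · exact le_refl _
  have hTn : ‖T‖ ≤ h * (h * B) := by
    calc ‖T‖ ≤ ∑ n ∈ Finset.Ioc M K, ‖aZ Z n * ((w n : ℝ) : ℂ)‖ := norm_sum_le _ _
      _ ≤ ∑ n ∈ Finset.Ioc M K, if n ∈ Finset.Ioc M (M + ⌊h⌋₊) then h * B else 0 :=
          Finset.sum_le_sum hterm
      _ = ∑ n ∈ (Finset.Ioc M K).filter (fun n => n ∈ Finset.Ioc M (M + ⌊h⌋₊)), h * B := by
          rw [Finset.sum_filter]
      _ = ((Finset.Ioc M K).filter (fun n => n ∈ Finset.Ioc M (M + ⌊h⌋₊))).card * (h * B) := by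
          rw [Finset.sum_const, nsmul_eq_mul]
      _ ≤ h * (h * B) := by
          refine mul_le_mul_of_nonneg_right ?_ (by positivity)
          have h1 : ((Finset.Ioc M K).filter (fun n => n ∈ Finset.Ioc M (M + ⌊h⌋₊))).card ≤
              (Finset.Ioc M (M + ⌊h⌋₊)).card := by
            refine Finset.card_le_card ?_
            intro n hn
            exact (Finset.mem_filter.1 hn).2
          rw [Nat.card_Ioc] at h1
          have h2 : ((Finset.Ioc M K).filter (fun n => n ∈ Finset.Ioc M (M + ⌊h⌋₊))).card ≤ ⌊h⌋₊ := by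
            omega
          calc (((Finset.Ioc M K).filter (fun n => n ∈ Finset.Ioc M (M + ⌊h⌋₊))).card : ℝ) ≤ ⌊h⌋₊ := by
                exact_mod_cast h2
            _ ≤ h := Nat.floor_le hh.le
  have e2 : A = (S - T) / (h : ℂ) := by
    have hh' : (h : ℂ) ≠ 0 := by exact_mod_cast hh.ne'
    rw [e1]
    field_simp
    ring
  have e3 : ‖A‖ ≤ (‖S‖ + h * (h * B)) / h := by
    rw [e2, norm_div, norm_real, Real.norm_of_nonneg hh.le]
    refine div_le_div_of_nonneg_right ?_ hh.le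
    exact (norm_sub_le _ _).trans (by linarith)
  have e4 : (‖S‖ + h * (h * B)) / h = ‖S‖ / h + h * B := by
    field_simp
  rw [e4] at e3
  have e5 : h * B ≤ (h + 1) * B := by nlinarith
  linarith

end Pool.Agent.H48.LDP
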