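import Mathlib

/-!
# Zs: `∑_{n ≤ x} n^(ρ-1)`

PROOF.  For `n ≥ 1`: `‖n^(ρ-1) - ∫_n^(n+1) u^(ρ-1) du‖ ≤ ‖ρ-1‖ n^(Re ρ - 2) ≤ ‖ρ-1‖/n` (`Re ρ ≤ 1`), so
`∑_{n ≤ M} n^(ρ-1) = ∫_1^(M+1) u^(ρ-1) du + O(‖ρ-1‖ (1 + log M)) = ((M+1)^ρ - 1)/ρ + ...`, and
`‖(M+1)^ρ - x^ρ‖/‖ρ‖ ≤ ∫ u^(Re ρ - 1) du ≤ 1` for `M ≤ x ≤ M + 1`.  `‖1/ρ‖ ≤ 2`.  About 100 lines.
-/

set_option autoImplicit false

open Complex

namespace Pool.Agent.H48.LDP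

private theorem zs_step (ρ : ℂ) (h1 : 1 / 2 ≤ ρ.re) (h2 : ρ.re ≤ 1) {n : ℕ} (hn : 1 ≤ n) :
    ‖(((n + 1 : ℕ) : ℂ) ^ ρ / ρ - (n : ℂ) ^ ρ / ρ) - (n : ℂ) ^ (ρ - 1)‖ ≤ ‖ρ - 1‖ * (n : ℝ)⁻¹ := by
  have hn1 : (1 : ℝ) ≤ n := by exact_mod_cast hn
  have hn0 : (0 : ℝ) < n := by linarith
  have hne : ρ - 1 ≠ -1 := by
    intro h0
    have h3 : ρ = 0 := by linear_combination h0
    rw [h3] at h1
    norm_num at h1
  -- inner bound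
  have inner : ∀ u ∈ Set.Icc (n : ℝ) (n + 1),
      ‖(u : ℂ) ^ (ρ - 1) - ((n : ℝ) : ℂ) ^ (ρ - 1)‖ ≤ ‖ρ - 1‖ * (n : ℝ)⁻¹ := by
    intro u hu
    have hf : ∀ v ∈ Set.Icc (n : ℝ) (n + 1), HasDerivWithinAt (fun v : ℝ => (v : ℂ) ^ (ρ - 1))
        ((ρ - 1) * (v : ℂ) ^ (ρ - 1 - 1)) (Set.Icc (n : ℝ) (n + 1)) v := by
      intro v hv
      have hv0 : 0 < v := lt_of_lt_of_le hn0 hv.1
      have h3 : HasDerivAt (fun z : ℂ => z ^ (ρ - 1)) ((ρ - 1) * (v : ℂ) ^ (ρ - 1 - 1) * 1)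
          (v : ℂ) := (hasDerivAt_id (v : ℂ)).cpow_const (Or.inl (by simpa using hv0))
      rw [mul_one] at h3
      exact h3.comp_ofReal.hasDerivWithinAt
    have hb : ∀ v ∈ Set.Icc (n : ℝ) (n + 1),
        ‖(ρ - 1) * (v : ℂ) ^ (ρ - 1 - 1)‖ ≤ ‖ρ - 1‖ * (n : ℝ)⁻¹ := by
      intro v hv
      have hv0 : 0 < v := lt_of_lt_of_le hn0 hv.1
      have hv1 : 1 ≤ v := le_trans hn1 hv.1
      rw [norm_mul, norm_cpow_eq_rpow_re_of_pos hv0]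
      refine mul_le_mul_of_nonneg_left ?_ (norm_nonneg _)
      calc v ^ (ρ - 1 - 1).re ≤ v ^ (-1 : ℝ) := by
            refine Real.rpow_le_rpow_of_exponent_le hv1 ?_
            simp only [sub_re, one_re]
            linarith
        _ = v⁻¹ := Real.rpow_neg_one v
        _ ≤ (n : ℝ)⁻¹ := inv_anti₀ hn0 hv.1
    have h4 := (convex_Icc (n : ℝ) (n + 1)).norm_image_sub_le_of_norm_hasDerivWithin_le hf hb
      (Set.left_mem_Icc.2 (by linarith)) hu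
    refine h4.trans ?_
    have h5 : ‖u - (n : ℝ)‖ ≤ 1 := by
      rw [Real.norm_eq_abs, abs_le]
      constructor <;> linarith [hu.1, hu.2]
    calc ‖ρ - 1‖ * (n : ℝ)⁻¹ * ‖u - (n : ℝ)‖ ≤ ‖ρ - 1‖ * (n : ℝ)⁻¹ * 1 :=
          mul_le_mul_of_nonneg_left h5 (by positivity)
      _ = ‖ρ - 1‖ * (n : ℝ)⁻¹ := mul_one _
  have hf : ∀ v ∈ Set.Icc (n : ℝ) (n + 1), HasDerivWithinAt
      (fun v : ℝ => (v : ℂ) ^ (ρ - 1 + 1) / (ρ - 1 + 1) - ((n : ℝ) : ℂ) ^ (ρ - 1) * (v : ℂ))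
      ((v : ℂ) ^ (ρ - 1) - ((n : ℝ) : ℂ) ^ (ρ - 1)) (Set.Icc (n : ℝ) (n + 1)) v := by
    intro v hv
    have hv0 : 0 < v := lt_of_lt_of_le hn0 hv.1
    have h3 := hasDerivAt_ofReal_cpow_const' hv0.ne' hne
    have h4 : HasDerivAt (fun v : ℝ => ((n : ℝ) : ℂ) ^ (ρ - 1) * (v : ℂ))
        (((n : ℝ) : ℂ) ^ (ρ - 1)) v := by
      have := (hasDerivAt_id v).ofReal_comp.const_mul (((n : ℝ) : ℂ) ^ (ρ - 1))
      simpa using this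
    exact (h3.sub h4).hasDerivWithinAt
  have h6 := (convex_Icc (n : ℝ) (n + 1)).norm_image_sub_le_of_norm_hasDerivWithin_le hf inner
    (Set.left_mem_Icc.2 (by linarith)) (Set.right_mem_Icc.2 (by linarith))
  have h7 : ‖(n : ℝ) + 1 - (n : ℝ)‖ = 1 := by
    rw [add_sub_cancel_left, norm_one]
  rw [h7, mul_one] at h6
  refine le_trans (le_of_eq ?_) h6
  congr 1
  push_cast
  rw [sub_add_cancel]
  ring

private theorem zs_end (ρ : ℂ) (h1 : 1 / 2 ≤ ρ.re) (h2 : ρ.re ≤ 1) {x y : ℝ} (hx : 1 ≤ x)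
    (hxy : x ≤ y) (hy : y ≤ x + 1) : ‖(y : ℂ) ^ ρ / ρ - (x : ℂ) ^ ρ / ρ‖ ≤ 1 := by
  have hne : ρ - 1 ≠ -1 := by
    intro h0
    have h3 : ρ = 0 := by linear_combination h0
    rw [h3] at h1
    norm_num at h1
  have hf : ∀ v ∈ Set.Icc x y, HasDerivWithinAt
      (fun v : ℝ => (v : ℂ) ^ (ρ - 1 + 1) / (ρ - 1 + 1))
      ((v : ℂ) ^ (ρ - 1)) (Set.Icc x y) v := by
    intro v hv
    have hv0 : 0 < v := lt_of_lt_of_le (by linarith) hv.1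
    exact (hasDerivAt_ofReal_cpow_const' hv0.ne' hne).hasDerivWithinAt
  have hb : ∀ v ∈ Set.Icc x y, ‖(v : ℂ) ^ (ρ - 1)‖ ≤ 1 := by
    intro v hv
    have hv1 : 1 ≤ v := le_trans hx hv.1
    rw [norm_cpow_eq_rpow_re_of_pos (by linarith)]
    refine Real.rpow_le_one_of_one_le_of_nonpos hv1 ?_
    simp only [sub_re, one_re]
    linarith
  have h6 := (convex_Icc x y).norm_image_sub_le_of_norm_hasDerivWithin_le hf hb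
    (Set.left_mem_Icc.2 hxy) (Set.right_mem_Icc.2 hxy)
  have h7 : ‖y - x‖ ≤ 1 := by
    rw [Real.norm_eq_abs, abs_le]
    constructor <;> linarith
  rw [sub_add_cancel] at h6
  linarith

private theorem zs_sum (ρ : ℂ) (h1 : 1 / 2 ≤ ρ.re) (h2 : ρ.re ≤ 1) (M : ℕ) :
    ‖((((M + 1 : ℕ) : ℂ) ^ ρ / ρ - 1 / ρ)) - ∑ n ∈ Finset.Icc 1 M, (n : ℂ) ^ (ρ - 1)‖ ≤
      ‖ρ - 1‖ * ∑ n ∈ Finset.Icc 1 M, (n : ℝ)⁻¹ := by
  induction M with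
  | zero => simp
  | succ M ih =>
    rw [Finset.sum_Icc_succ_top (by omega), Finset.sum_Icc_succ_top (by omega), mul_add]
    have h3 := zs_step ρ h1 h2 (n := M + 1) (by omega)
    refine le_trans ?_ (add_le_add ih h3)
    refine le_trans (le_of_eq ?_) (norm_add_le _ _)
    congr 1
    ring

theorem zs (ρ : ℂ) (h1 : 1 / 2 ≤ ρ.re) (h2 : ρ.re ≤ 1) {x : ℝ} (hx : 1 ≤ x) :
    ‖∑ n ∈ Finset.Icc 1 ⌊x⌋₊, (n : ℂ) ^ (ρ - 1) - (x : ℂ) ^ ρ / ρ‖ ≤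
      4 * (1 + ‖ρ‖) * (1 + Real.log x) := by
  set M := ⌊x⌋₊ with hM
  have hM1 : 1 ≤ M := Nat.le_floor (by exact_mod_cast hx)
  have hMx : (M : ℝ) ≤ x := Nat.floor_le (by linarith)
  have hxM : x < M + 1 := Nat.lt_floor_add_one x
  have hlog : 0 ≤ Real.log x := Real.log_nonneg hx
  have a1 := zs_sum ρ h1 h2 M
  have a2 := zs_end ρ h1 h2 hx (y := (M : ℝ) + 1) hxM.le (by linarith)
  have a3 : ∑ n ∈ Finset.Icc 1 M, (n : ℝ)⁻¹ ≤ 1 + Real.log x := by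
    have h3 := harmonic_le_one_add_log M
    rw [harmonic_eq_sum_Icc] at h3
    push_cast at h3
    refine h3.trans ?_
    have : Real.log M ≤ Real.log x := Real.log_le_log (by exact_mod_cast hM1) hMx
    linarith
  have a4 : ‖1 / ρ‖ ≤ 2 := by
    rw [norm_div, norm_one]
    have h3 : 1 / 2 ≤ ‖ρ‖ := le_trans h1 (re_le_norm ρ)
    rw [div_le_iff₀ (by linarith)]
    linarith
  have a5 : ‖ρ - 1‖ ≤ 1 + ‖ρ‖ := by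
    refine (norm_sub_le _ _).trans ?_
    rw [norm_one]
    linarith
  have e1 : ∑ n ∈ Finset.Icc 1 M, (n : ℂ) ^ (ρ - 1) - (x : ℂ) ^ ρ / ρ =
      -(((((M + 1 : ℕ) : ℂ) ^ ρ / ρ - 1 / ρ)) - ∑ n ∈ Finset.Icc 1 M, (n : ℂ) ^ (ρ - 1)) +
        (((((M : ℝ) + 1 : ℝ) : ℂ) ^ ρ / ρ - (x : ℂ) ^ ρ / ρ) - 1 / ρ) := by
    push_cast
    ring
  rw [e1]
  refine (norm_add_le _ _).trans ?_
  rw [norm_neg]
  have a6 := norm_sub_le ((((M : ℝ) + 1 : ℝ) : ℂ) ^ ρ / ρ - (x : ℂ) ^ ρ / ρ) (1 / ρ)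
  have a7 : ‖ρ - 1‖ * ∑ n ∈ Finset.Icc 1 M, (n : ℝ)⁻¹ ≤ (1 + ‖ρ‖) * (1 + Real.log x) :=
    mul_le_mul a5 a3 (Finset.sum_nonneg fun _ _ => by positivity) (by positivity)
  have a8 : 1 ≤ (1 + ‖ρ‖) * (1 + Real.log x) := by
    nlinarith [norm_nonneg ρ, hlog, mul_nonneg (norm_nonneg ρ) hlog]
  linarith

end Pool.Agent.H48.LDP
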