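import Mathlib
import Pool.Agent.H48.LDP.Pth
import Pool.Agent.H48.LDP.Shf
import Pool.Agent.H48.LDP.Uns
import Pool.Agent.H48.LDP.Zs

/-!
# Psa: the prime number theorem with the zeros to the right of a line

PROOF.  `pth` (with this `N`; `S.card ≤ mul S`, `zord ≥ 1`) gives `σ, T'`, `δ = η/(8(N+1))`.  `Z` = the zeros with
`σ ≤ Re u`, `|Im u| ≤ T'` (`zeros_finite`); `mul Z ≤ N`.  `M = ⌊x⌋₊`, `h = x/√T` (`≥ 1`), `K = ⌈M + h⌉₊`, `X1 = M`, `X2 = M + h ≤ 2x`.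
`shf` and `uns`: `‖∑_{n ≤ M} aZ Z n‖ ≤ (√T/x) C (1+N)(8(N+1)/η) (4x² log (2x)/T + 4 x^(2-η) 2T) + (h+1)(log (2x) + 1 + N)`
(`X2^(σ+1) ≤ (2x)^(2-η) ≤ 4 x^(2-η)`) `≤ C' (1+N)² (x/η)(log x/√T + x^(-η) T²)` (`T^(3/2) ≤ T²`; the last term
`≤ C (1+N) x log x/√T`, as `h ≥ 1`).  Finally `∑_{n ≤ M} aZ Z n = ψ(x) - M + ∑ m ∑_{n ≤ M} n^(ρ-1)` and `zs`
(`‖ρ‖ ≤ T + 2`, total error `≤ N·4(T+3)(1+log x) + 1 ≤ C N x log x/√T` as `T ≤ x^(1/4)`).  About 200 lines.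
-/

set_option autoImplicit false

open Complex

namespace Pool.Agent.H48.LDP

open Pool.Agent.H6 Pool.Agent.H6.Win

private theorem psa_card {S : Finset ℂ} (hS : ∀ u ∈ S, zetaPole u = 0) : S.card ≤ mul S := by
  unfold mul
  calc S.card = ∑ _ρ ∈ S, 1 := by simp
    _ ≤ ∑ ρ ∈ S, zord ρ := Finset.sum_le_sum fun ρ hρ => zord_pos (hS ρ hρ)

private theorem psa_re {ρ : ℂ} (h : zetaPole ρ = 0) : ρ.re < 1 := by
  by_contra h1
  exact zetaPole_ne_zero_of_one_le (not_lt.1 h1) h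

private theorem psa_split (Z : Finset ℂ) (x : ℝ) :
    ((∑ n ∈ Finset.Icc 1 ⌊x⌋₊, ArithmeticFunction.vonMangoldt n : ℝ) : ℂ) - x +
          ∑ ρ ∈ Z, (zord ρ : ℂ) * ((x : ℂ) ^ ρ / ρ) =
      ∑ n ∈ Finset.Icc 1 ⌊x⌋₊, aZ Z n + ((⌊x⌋₊ : ℂ) - x) -
        ∑ ρ ∈ Z, (zord ρ : ℂ) * (∑ n ∈ Finset.Icc 1 ⌊x⌋₊, (n : ℂ) ^ (ρ - 1) - (x : ℂ) ^ ρ / ρ) := by
  have h1 : ∑ n ∈ Finset.Icc 1 ⌊x⌋₊, aZ Z n =
      ((∑ n ∈ Finset.Icc 1 ⌊x⌋₊, ArithmeticFunction.vonMangoldt n : ℝ) : ℂ) - (⌊x⌋₊ : ℂ) +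
        ∑ ρ ∈ Z, (zord ρ : ℂ) * ∑ n ∈ Finset.Icc 1 ⌊x⌋₊, (n : ℂ) ^ (ρ - 1) := by
    unfold aZ
    rw [Finset.sum_add_distrib, Finset.sum_sub_distrib, Finset.sum_comm]
    simp only [Finset.mul_sum]
    push_cast
    simp
  rw [h1]
  simp only [mul_sub, Finset.sum_sub_distrib]
  ring

/-- the zeros: error of the sums of the powers -/
private theorem psa_zs {Z : Finset ℂ} {x T : ℝ} (hx : 1 ≤ x) (hT : 2 ≤ T)
    (hZ : ∀ ρ ∈ Z, zetaPole ρ = 0 ∧ 3 / 4 ≤ ρ.re ∧ |ρ.im| ≤ T + 1) :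
    ‖∑ ρ ∈ Z, (zord ρ : ℂ) * (∑ n ∈ Finset.Icc 1 ⌊x⌋₊, (n : ℂ) ^ (ρ - 1) - (x : ℂ) ^ ρ / ρ)‖ ≤
      mul Z * (10 * T * (1 + Real.log x)) := by
  have hlog : 0 ≤ Real.log x := Real.log_nonneg hx
  have h1 : ∀ ρ ∈ Z, ‖(zord ρ : ℂ) *
      (∑ n ∈ Finset.Icc 1 ⌊x⌋₊, (n : ℂ) ^ (ρ - 1) - (x : ℂ) ^ ρ / ρ)‖ ≤
      zord ρ * (10 * T * (1 + Real.log x)) := by
    intro ρ hρ
    obtain ⟨h1, h2, h3⟩ := hZ ρ hρ
    have h4 := psa_re h1
    rw [norm_mul, Complex.norm_natCast]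
    refine mul_le_mul_of_nonneg_left ?_ (Nat.cast_nonneg _)
    have h5 := zs ρ (by linarith) h4.le hx
    refine h5.trans ?_
    have h6 : ‖ρ‖ ≤ T + 2 := by
      have := Complex.norm_le_abs_re_add_abs_im ρ
      have h7 : |ρ.re| ≤ 1 := by
        rw [abs_le]
        constructor <;> linarith
      linarith
    have h8 : 4 * (1 + ‖ρ‖) ≤ 10 * T := by linarith
    exact mul_le_mul_of_nonneg_right h8 (by linarith)
  refine (norm_sum_le _ _).trans ((Finset.sum_le_sum h1).trans (le_of_eq ?_))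
  rw [← Finset.sum_mul]
  unfold mul
  push_cast
  rfl

/-- the smoothed sum -/
private theorem psa_smooth {C1 x T T' η σ X1 X2 m N s : ℝ} (hC1 : 1 ≤ C1) (hx : 4 ≤ x) (hT : 2 ≤ T)
    (hT1 : T ≤ T') (hT2 : T' ≤ T + 1) (hη : 0 < η) (hη1 : η ≤ 1 / 8) (hσ : σ ≤ 1 - η)
    (hσ0 : 0 ≤ σ) (hX1 : 3 ≤ X1) (hX : X1 ≤ X2) (hX2 : X2 ≤ 2 * x) (hm0 : 0 ≤ m) (hm : m ≤ N)
    (hs : s ≤ C1 * (1 + m) / (η / (8 * (N + 1))) * (X2 ^ 2 * Real.log X2 / T' + X2 ^ (σ + 1) * T')) :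
    s / (x / √T) ≤
      64 * C1 * (1 + N) ^ 2 * (x / η) * (Real.log x / √T + x ^ (-η) * T ^ 2) := by
  have hx0 : 0 < x := by linarith
  have hT0 : 0 < T := by linarith
  have hN : 0 ≤ N := hm0.trans hm
  have hX20 : 3 ≤ X2 := hX1.trans hX
  have hsT : 0 < √T := Real.sqrt_pos.2 hT0
  have hlog : 1 ≤ Real.log x := by
    rw [Real.le_log_iff_exp_le hx0]
    have := Real.exp_one_lt_d9
    linarith
  have hl2 : Real.log X2 ≤ 2 * Real.log x := by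
    calc Real.log X2 ≤ Real.log (x ^ 2) := Real.log_le_log (by linarith) (by nlinarith)
      _ = 2 * Real.log x := by rw [Real.log_pow]; norm_num
  have hl0 : 0 ≤ Real.log X2 := Real.log_nonneg (by linarith)
  have a1 : X2 ^ 2 * Real.log X2 / T' ≤ 8 * x ^ 2 * Real.log x / T := by
    have e1 : X2 ^ 2 ≤ 4 * x ^ 2 := by nlinarith
    have e2 : X2 ^ 2 * Real.log X2 ≤ 4 * x ^ 2 * (2 * Real.log x) :=
      mul_le_mul e1 hl2 hl0 (by positivity)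
    calc X2 ^ 2 * Real.log X2 / T' ≤ (4 * x ^ 2 * (2 * Real.log x)) / T :=
          div_le_div₀ (by positivity) e2 hT0 hT1
      _ = 8 * x ^ 2 * Real.log x / T := by ring
  have a2 : X2 ^ (σ + 1) * T' ≤ 8 * x ^ 2 * x ^ (-η) * T := by
    have e1 : X2 ^ (σ + 1) ≤ (2 * x) ^ (2 - η) := by
      calc X2 ^ (σ + 1) ≤ (2 * x) ^ (σ + 1) :=
            Real.rpow_le_rpow (by linarith) hX2 (by linarith)
        _ ≤ (2 * x) ^ (2 - η) := Real.rpow_le_rpow_of_exponent_le (by linarith) (by linarith)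
    have e2 : (2 * x) ^ (2 - η) ≤ 4 * (x ^ 2 * x ^ (-η)) := by
      rw [Real.mul_rpow (by norm_num) hx0.le]
      have e3 : (2:ℝ) ^ (2 - η) ≤ 4 := by
        calc (2:ℝ) ^ (2 - η) ≤ (2:ℝ) ^ (2:ℝ) :=
              Real.rpow_le_rpow_of_exponent_le (by norm_num) (by linarith)
          _ = 4 := by norm_num
      have e4 : x ^ (2 - η) = x ^ 2 * x ^ (-η) := by
        rw [sub_eq_add_neg, Real.rpow_add hx0]
        norm_num
      rw [e4]
      exact mul_le_mul_of_nonneg_right e3 (by positivity)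
    have e5 : T' ≤ 2 * T := by linarith
    calc X2 ^ (σ + 1) * T' ≤ (4 * (x ^ 2 * x ^ (-η))) * (2 * T) :=
          mul_le_mul (e1.trans e2) e5 (by linarith) (by positivity)
      _ = 8 * x ^ 2 * x ^ (-η) * T := by ring
  have a3 : C1 * (1 + m) / (η / (8 * (N + 1))) ≤ C1 * (1 + N) * (8 * (N + 1)) / η := by
    rw [div_div_eq_mul_div]
    have e1 : C1 * (1 + m) ≤ C1 * (1 + N) := by
      refine mul_le_mul_of_nonneg_left ?_ (by linarith)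
      linarith
    have e2 : C1 * (1 + m) * (8 * (N + 1)) ≤ C1 * (1 + N) * (8 * (N + 1)) :=
      mul_le_mul_of_nonneg_right e1 (by linarith)
    exact div_le_div_of_nonneg_right e2 hη.le
  have hxη : 0 < x ^ (-η) := Real.rpow_pos_of_pos hx0 _
  have a4 : s ≤ C1 * (1 + N) * (8 * (N + 1)) / η *
      (8 * x ^ 2 * Real.log x / T + 8 * x ^ 2 * x ^ (-η) * T) := by
    refine hs.trans (mul_le_mul a3 (add_le_add a1 a2) ?_ (by positivity))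
    have e1 : 0 ≤ X2 ^ (σ + 1) := Real.rpow_nonneg (by linarith) _
    have e2 : 0 ≤ T' := by linarith
    positivity
  have hh : 0 < x / √T := by positivity
  rw [div_le_iff₀ hh]
  refine a4.trans ?_
  have b1 : C1 * (1 + N) * (8 * (N + 1)) / η *
      (8 * x ^ 2 * Real.log x / T + 8 * x ^ 2 * x ^ (-η) * T) =
      64 * C1 * (1 + N) ^ 2 * (x / η) * (x * (Real.log x / T + x ^ (-η) * T)) := by
    ring
  have b2 : 64 * C1 * (1 + N) ^ 2 * (x / η) * (Real.log x / √T + x ^ (-η) * T ^ 2) * (x / √T) =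
      64 * C1 * (1 + N) ^ 2 * (x / η) *
        (x * ((Real.log x / √T + x ^ (-η) * T ^ 2) / √T)) := by
    ring
  rw [b1, b2]
  refine mul_le_mul_of_nonneg_left ?_ (by positivity)
  refine mul_le_mul_of_nonneg_left ?_ hx0.le
  have c1 : (Real.log x / √T) / √T = Real.log x / T := by
    rw [div_div, Real.mul_self_sqrt hT0.le]
  rw [add_div, c1]
  have c2 : x ^ (-η) * T ≤ x ^ (-η) * T ^ 2 / √T := by
    rw [mul_div_assoc]
    refine mul_le_mul_of_nonneg_left ?_ hxη.le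
    rw [le_div_iff₀ hsT, sq]
    refine mul_le_mul_of_nonneg_left ?_ hT0.le
    rw [Real.sqrt_le_left hT0.le]
    nlinarith
  linarith

theorem psa : ∃ C : ℝ, 1 ≤ C ∧ ∀ (x T η : ℝ) (N : ℕ), C ≤ x → 2 ≤ T → T ≤ x ^ (1 / 4 : ℝ) →
    0 < η → η ≤ 1 / 8 →
    (∀ S : Finset ℂ, (∀ u ∈ S, zetaPole u = 0 ∧ 1 - 2 * η ≤ u.re ∧ |u.im| ≤ T + 2) →
      mul S ≤ N) →
    ∃ Z : Finset ℂ, (∀ ρ ∈ Z, zetaPole ρ = 0 ∧ 1 - 2 * η ≤ ρ.re ∧ |ρ.im| ≤ T + 1) ∧ mul Z ≤ N ∧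
      ‖((∑ n ∈ Finset.Icc 1 ⌊x⌋₊, ArithmeticFunction.vonMangoldt n : ℝ) : ℂ) - x +
          ∑ ρ ∈ Z, (zord ρ : ℂ) * ((x : ℂ) ^ ρ / ρ)‖ ≤
        C * (1 + N) ^ 2 * (x / η) * (Real.log x / √T + x ^ (-η) * T ^ 2) := by
  obtain ⟨C1, hC1, hshf⟩ := shf
  refine ⟨64 * C1 + 100, by linarith, ?_⟩
  intro x T η N hCx hT hTx hη hη1 hN
  have hx : 4 ≤ x := by linarith
  have hx0 : 0 < x := by linarith
  have hT0 : 0 < T := by linarith
  have hlog : 1 ≤ Real.log x := by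
    rw [Real.le_log_iff_exp_le hx0]
    have := Real.exp_one_lt_d9
    linarith
  have hTT : T ^ 2 ≤ x := by
    have e1 : T ^ 2 ≤ (x ^ (1 / 4 : ℝ)) ^ 2 := pow_le_pow_left₀ hT0.le hTx 2
    have e2 : (x ^ (1 / 4 : ℝ)) ^ 2 = x ^ (1 / 2 : ℝ) := by
      rw [← Real.rpow_natCast, ← Real.rpow_mul hx0.le]
      norm_num
    have e3 : x ^ (1 / 2 : ℝ) ≤ x ^ (1 : ℝ) :=
      Real.rpow_le_rpow_of_exponent_le (by linarith) (by norm_num)
    rw [Real.rpow_one] at e3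
    linarith
  have hsT : 0 < √T := Real.sqrt_pos.2 hT0
  have hsT1 : √T ≤ T := by
    rw [Real.sqrt_le_left hT0.le]
    nlinarith
  have hTh : T ≤ x / √T := by
    rw [le_div_iff₀ hsT]
    nlinarith
  have hh1 : 1 ≤ x / √T := by linarith
  -- the path
  obtain ⟨σ, T', hσ1, hσ2, hT1, hT2, hpath⟩ := pth (N := N) hη hη1 (by linarith : (1:ℝ) ≤ T)
    (fun S hS => (psa_card fun u hu => (hS u hu).1).trans (hN S hS))
  set Z : Finset ℂ := (zset (σ - 1) T').filter (fun u => σ ≤ u.re) with hZdef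
  have hZmem : ∀ u, u ∈ Z ↔ (σ ≤ u.re ∧ |u.im| ≤ T' ∧ zetaPole u = 0) := by
    intro u
    rw [hZdef, Finset.mem_filter, mem_zset]
    constructor
    · rintro ⟨⟨-, h1, h2⟩, h3⟩
      exact ⟨h3, h1, h2⟩
    · rintro ⟨h1, h2, h3⟩
      exact ⟨⟨by linarith, h2, h3⟩, h1⟩
  have hZ0 : ∀ ρ ∈ Z, zetaPole ρ = 0 := fun ρ hρ => ((hZmem ρ).1 hρ).2.2
  have hZ1 : ∀ ρ ∈ Z, zetaPole ρ = 0 ∧ 1 - 2 * η ≤ ρ.re ∧ |ρ.im| ≤ T + 1 := by
    intro ρ hρ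
    obtain ⟨h1, h2, h3⟩ := (hZmem ρ).1 hρ
    exact ⟨h3, by linarith, by linarith⟩
  have hmul : mul Z ≤ N := hN Z fun ρ hρ => by
    obtain ⟨h1, h2, h3⟩ := hZ1 ρ hρ
    exact ⟨h1, h2, by linarith⟩
  have hmulR : (mul Z : ℝ) ≤ N := by exact_mod_cast hmul
  have hmul0 : (0 : ℝ) ≤ mul Z := Nat.cast_nonneg _
  have hNR : (0 : ℝ) ≤ N := Nat.cast_nonneg _
  refine ⟨Z, hZ1, hmul, ?_⟩
  set M : ℕ := ⌊x⌋₊ with hM
  have hMx : (M : ℝ) ≤ x := Nat.floor_le hx0.le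
  have hxM : x < M + 1 := Nat.lt_floor_add_one x
  set h : ℝ := x / √T with hh
  have hh0 : 0 < h := by linarith
  have hhx : h ≤ x := by
    rw [hh, div_le_iff₀ hsT]
    have : 1 ≤ √T := by
      rw [Real.one_le_sqrt]
      linarith
    nlinarith
  have hM3 : 3 ≤ (M : ℝ) := by linarith
  have hM1 : 1 ≤ M := by
    have : (1 : ℝ) ≤ M := by linarith
    exact_mod_cast this
  have hX2 : (M : ℝ) + h ≤ 2 * x := by linarith
  have hδ0 : 0 < η / (8 * ((N : ℝ) + 1)) := by positivity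
  have hδ1 : η / (8 * ((N : ℝ) + 1)) ≤ 1 := by
    rw [div_le_one (by positivity)]
    nlinarith
  have b1 := hshf M (M + h) σ T' (η / (8 * ((N : ℝ) + 1))) Z ⌈(M : ℝ) + h⌉₊ hM3 (by linarith)
    (Nat.le_ceil _) (by linarith) (by linarith) (by linarith) hδ0 hδ1
    (fun ρ hρ => by
      obtain ⟨h1, h2, h3⟩ := (hZmem ρ).1 hρ
      exact ⟨h3, h1, h2⟩)
    (fun u h1 h2 h3 => (hZmem u).2 ⟨h2, h3, h1⟩) hpath
  have b2 := uns Z hZ0 (M := M) (K := ⌈(M : ℝ) + h⌉₊) (h := h) hM1 hh0 (Nat.le_ceil _)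
  have b3 := psa_smooth hC1 hx hT hT1 hT2 hη hη1 hσ2 (by linarith) hM3 (by linarith) hX2 hmul0 hmulR b1
  rw [← hh] at b3
  have b4 := psa_zs (x := x) (by linarith) hT (Z := Z) (fun ρ hρ => by
    obtain ⟨h1, h2, h3⟩ := hZ1 ρ hρ
    exact ⟨h1, by linarith, h3⟩)
  set Q : ℝ := (1 + (N : ℝ)) ^ 2 * (x / η) * (Real.log x / √T + x ^ (-η) * T ^ 2) with hQ
  -- one unit
  have hU : (1 + (N : ℝ)) * (h * Real.log x) ≤ Q := by
    have e1 : h * Real.log x = x * (Real.log x / √T) := by rw [hh]; ring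
    have e2 : (1 + (N : ℝ)) ≤ (1 + N) ^ 2 := by nlinarith
    have e3 : x ≤ x / η := by
      rw [le_div_iff₀ hη]
      nlinarith
    have e4 : 0 ≤ Real.log x / √T := by positivity
    have e5 : 0 ≤ x ^ (-η) * T ^ 2 := by positivity
    rw [e1, hQ]
    calc (1 + (N : ℝ)) * (x * (Real.log x / √T)) ≤ (1 + N) ^ 2 * ((x / η) * (Real.log x / √T)) :=
          mul_le_mul e2 (mul_le_mul_of_nonneg_right e3 e4) (by positivity) (by positivity)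
      _ ≤ (1 + N) ^ 2 * ((x / η) * (Real.log x / √T + x ^ (-η) * T ^ 2)) := by
          refine mul_le_mul_of_nonneg_left ?_ (by positivity)
          refine mul_le_mul_of_nonneg_left ?_ (by positivity)
          linarith
      _ = _ := by ring
  have hU1 : 1 ≤ (1 + (N : ℝ)) * (h * Real.log x) := by
    have e1 : 1 ≤ h * Real.log x := by nlinarith
    nlinarith
  have c1 : (h + 1) * (Real.log (M + h) + 1 + mul Z) ≤ 6 * ((1 + (N : ℝ)) * (h * Real.log x)) := by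
    have e1 : Real.log (M + h) ≤ 2 * Real.log x := by
      calc Real.log (M + h) ≤ Real.log (x ^ 2) := Real.log_le_log (by linarith) (by nlinarith)
        _ = 2 * Real.log x := by rw [Real.log_pow]; norm_num
    have e2 : Real.log (M + h) + 1 + mul Z ≤ 3 * ((1 + (N : ℝ)) * Real.log x) := by nlinarith
    calc (h + 1) * (Real.log (M + h) + 1 + mul Z) ≤ (2 * h) * (3 * ((1 + (N : ℝ)) * Real.log x)) := by
          refine mul_le_mul (by linarith) e2 ?_ (by linarith)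
          have : 0 ≤ Real.log (M + h) := Real.log_nonneg (by linarith)
          linarith
      _ = _ := by ring
  have c2 : (mul Z : ℝ) * (10 * T * (1 + Real.log x)) ≤
      20 * ((1 + (N : ℝ)) * (h * Real.log x)) := by
    have e1 : 10 * T * (1 + Real.log x) ≤ 20 * (h * Real.log x) := by
      have e2 : T * (1 + Real.log x) ≤ h * (2 * Real.log x) :=
        mul_le_mul hTh (by linarith) (by linarith) hh0.le
      linarith
    calc (mul Z : ℝ) * (10 * T * (1 + Real.log x)) ≤ (1 + N) * (20 * (h * Real.log x)) :=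
          mul_le_mul (by linarith) e1 (by positivity) (by linarith)
      _ = _ := by ring
  have c3 : ‖((M : ℂ) - x)‖ ≤ 1 := by
    have e1 : ((M : ℂ) - x) = (((M : ℝ) - x : ℝ) : ℂ) := by push_cast; ring
    rw [e1, norm_real, Real.norm_eq_abs, abs_le]
    constructor <;> linarith
  rw [psa_split]
  refine (norm_sub_le _ _).trans ?_
  have d1 := norm_add_le (∑ n ∈ Finset.Icc 1 ⌊x⌋₊, aZ Z n) ((⌊x⌋₊ : ℂ) - x)
  rw [← hM] at d1 ⊢
  have d2 : 64 * C1 * (1 + (N : ℝ)) ^ 2 * (x / η) * (Real.log x / √T + x ^ (-η) * T ^ 2) =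
      64 * C1 * Q := by rw [hQ]; ring
  have d3 : (64 * C1 + 100) * (1 + (N : ℝ)) ^ 2 * (x / η) *
      (Real.log x / √T + x ^ (-η) * T ^ 2) = 64 * C1 * Q + 100 * Q := by rw [hQ]; ring
  rw [d2] at b3
  rw [d3]
  linarith

end Pool.Agent.H48.LDP
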