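import Mathlib
import Pool.Agent.H48.LDP.Psa
import Pool.Agent.H48.LD.Fin
import Pool.Agent.H76.CR.ZFacts
import Pool.Agent.H76.PS.Cmpct

/-!
# Psb: the prime number theorem with every constant in the exponent and boundedly many zeros

PROOF.  `w = (log x)^(3/5) (loglog x)^(-1/5)`, `A = 2 lam + 4`, `T = exp (A w)`, `μ = A^(2/3) (2A + lam + 2)`,
`η = μ/((log T)^(2/3) (loglog T)^(1/3))`.  For large `x`: `A w ≤ log x`, `T ≤ x^(1/4)`, `T ≥ 16`, `η ≤ 1/8`,
`loglog T ≤ loglog x`, so `(log T)^(2/3) (loglog T)^(1/3) ≤ A^(2/3) w^(2/3) (loglog x)^(1/3) =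
A^(2/3) (log x)^(2/5) (loglog x)^(1/5)` and `η log x ≥ μ A^(-2/3) w = (2A + lam + 2) w`; so `x^(-η) T² ≤ exp (-(lam + 2) w)`,
`log x/√T = log x exp(-A w/2) = log x exp (-(lam + 2) w)`, and `log x ≤ exp (w)`, `1/η ≤ log x` for large `x`; total
`≤ C (1+N)² x exp(-lam w)`.  `N`: the zeros with `Re u ≥ 1 - 2η`, `|Im u| ≤ T + 2`: those with `Im u > 0` by the second part
of `main` (`H48/LD/Fin.lean`) with the parameter `8 μ` at height `T + 2` (`log (T+2) ≤ 2 log T`, `loglog (T+2) ≤ 2 loglog T`, so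
`2η < 8μ/((log (T+2))^(2/3) (loglog (T+2))^(1/3))`), those with `Im u < 0` by conjugation (`zeta_conj_zero` in
`H76/PS/Cmpct.lean`; the multiplicity of the conjugate is the same), none with `Im u = 0` (`small 0` in
`H48/LD/Small.lean`, `2η` small).  `zord_eq` (`CR/ZFacts.lean`): `zord u = analyticOrderNatAt riemannZeta u`.
For `x` below the bound: `Z = ∅`, trivial estimate (`ψ(x) ≤ x log x`), `C` large.  About 250 lines.
-/

set_option autoImplicit false

open Complex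

namespace Pool.Agent.H48.LDP

open Pool.Agent.H6 Pool.Agent.H6.Win

/-- The order of a function which commutes with complex conjugation. -/
private theorem psb_order_conj {f : ℂ → ℂ} (hf : ∀ z, f ((starRingEnd ℂ) z) = (starRingEnd ℂ) (f z))
    {u : ℂ} (hu : AnalyticAt ℂ f u) (hu' : AnalyticAt ℂ f ((starRingEnd ℂ) u)) :
    analyticOrderAt f ((starRingEnd ℂ) u) = analyticOrderAt f u := by
  have htend : Filter.Tendsto (starRingEnd ℂ) (nhds ((starRingEnd ℂ) u)) (nhds u) := by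
    have h1 := (continuous_conj.tendsto ((starRingEnd ℂ) u))
    rwa [Complex.conj_conj] at h1
  by_cases htop : analyticOrderAt f u = ⊤
  · rw [htop, analyticOrderAt_eq_top]
    rw [analyticOrderAt_eq_top] at htop
    filter_upwards [htend.eventually htop] with z hz
    have h1 := hf z
    rw [hz] at h1
    have h2 := congrArg (starRingEnd ℂ) h1
    rwa [Complex.conj_conj, map_zero, eq_comm] at h2
  · obtain ⟨n, hn⟩ := ENat.ne_top_iff_exists.1 htop
    rw [← hn, hu'.analyticOrderAt_eq_natCast]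
    obtain ⟨g, hg, hg0, hfg⟩ := hu.analyticOrderAt_eq_natCast.1 hn.symm
    refine ⟨fun z => (starRingEnd ℂ) (g ((starRingEnd ℂ) z)), ?_, ?_, ?_⟩
    · rw [Complex.analyticAt_iff_eventually_differentiableAt]
      rw [Complex.analyticAt_iff_eventually_differentiableAt] at hg
      filter_upwards [htend.eventually hg] with z hz
      have h1 := hz.conj_conj
      rw [Complex.conj_conj] at h1
      exact h1
    · change (starRingEnd ℂ) (g ((starRingEnd ℂ) ((starRingEnd ℂ) u))) ≠ 0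
      rw [Complex.conj_conj]
      exact (map_ne_zero _).2 hg0
    · filter_upwards [htend.eventually hfg] with z hz
      have h1 := hf z
      rw [hz] at h1
      have h2 := congrArg (starRingEnd ℂ) h1
      rw [Complex.conj_conj, smul_eq_mul, map_mul, map_pow, map_sub, Complex.conj_conj] at h2
      rw [← h2]
      rfl

private theorem psb_zeta_an {u : ℂ} (hu : u ≠ 1) : AnalyticAt ℂ riemannZeta u := by
  have h1 : DifferentiableOn ℂ riemannZeta {1}ᶜ := fun z hz =>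
    (differentiableAt_riemannZeta hz).differentiableWithinAt
  exact h1.analyticAt (isOpen_compl_singleton.mem_nhds hu)

private theorem psb_mult_conj {u : ℂ} (hu : u ≠ 1) :
    analyticOrderNatAt riemannZeta ((starRingEnd ℂ) u) = analyticOrderNatAt riemannZeta u := by
  have hu' : (starRingEnd ℂ) u ≠ 1 := by
    intro h
    apply hu
    rw [← Complex.conj_conj u, h, map_one]
  unfold analyticOrderNatAt
  rw [psb_order_conj riemannZeta_conj (psb_zeta_an hu) (psb_zeta_an hu')]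

/-- The trivial estimate. -/
private theorem psb_triv {x : ℝ} (hx : 1 ≤ x) :
    ‖((∑ n ∈ Finset.Icc 1 ⌊x⌋₊, ArithmeticFunction.vonMangoldt n : ℝ) : ℂ) - x‖ ≤
      x * (Real.log x + 1) := by
  have hlog : 0 ≤ Real.log x := Real.log_nonneg hx
  have h1 : ∑ n ∈ Finset.Icc 1 ⌊x⌋₊, ArithmeticFunction.vonMangoldt n ≤ x * Real.log x := by
    have h2 : ∀ n ∈ Finset.Icc 1 ⌊x⌋₊, ArithmeticFunction.vonMangoldt n ≤ Real.log x := by
      intro n hn
      rw [Finset.mem_Icc] at hn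
      refine ArithmeticFunction.vonMangoldt_le_log.trans (Real.log_le_log ?_ ?_)
      · exact_mod_cast hn.1
      · exact (Nat.cast_le.2 hn.2).trans (Nat.floor_le (by linarith))
    refine (Finset.sum_le_sum h2).trans ?_
    rw [Finset.sum_const, Nat.card_Icc, Nat.add_sub_cancel, nsmul_eq_mul]
    exact mul_le_mul_of_nonneg_right (Nat.floor_le (by linarith)) hlog
  have h0 : 0 ≤ ∑ n ∈ Finset.Icc 1 ⌊x⌋₊, ArithmeticFunction.vonMangoldt n :=
    Finset.sum_nonneg fun _ _ => ArithmeticFunction.vonMangoldt_nonneg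
  refine (norm_sub_le _ _).trans ?_
  rw [Complex.norm_real, Complex.norm_real, Real.norm_of_nonneg h0,
    Real.norm_of_nonneg (by linarith)]
  linarith

/-- The total multiplicity of the zeros on both sides of the real axis. -/
private theorem psb_count {K T δ : ℝ}
    (hK : ∀ S : Finset ℂ, (∀ ρ ∈ S, riemannZeta ρ = 0 ∧ 0 < ρ.im ∧ ρ.im ≤ T ∧ 1 - δ ≤ ρ.re) →
      ∑ ρ ∈ S, (analyticOrderNatAt riemannZeta ρ : ℝ) ≤ K)
    (h0 : ∀ s : ℂ, riemannZeta s = 0 → |s.im| ≤ 0 → s.re < 1 - δ) (S : Finset ℂ)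
    (hS : ∀ u ∈ S, zetaPole u = 0 ∧ 1 - δ ≤ u.re ∧ |u.im| ≤ T) : (mul S : ℝ) ≤ 2 * K := by
  classical
  have hne : ∀ u ∈ S, u ≠ 1 := by
    rintro u hu rfl
    have h1 := (hS _ hu).1
    unfold zetaPole at h1
    rw [Function.update_self] at h1
    exact one_ne_zero h1
  have hz : ∀ u ∈ S, riemannZeta u = 0 := fun u hu =>
    (Pool.Agent.H76.CR.zetaPole_eq_zero_iff (hne u hu)).1 (hS u hu).1
  have him : ∀ u ∈ S, u.im ≠ 0 := by
    intro u hu h1
    have h2 := h0 u (hz u hu) (by rw [h1, abs_zero])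
    exact absurd h2 (not_lt.2 (hS u hu).2.1)
  have h1 : (mul S : ℝ) = ∑ u ∈ S, (analyticOrderNatAt riemannZeta u : ℝ) := by
    unfold mul
    push_cast
    refine Finset.sum_congr rfl fun u hu => ?_
    rw [Pool.Agent.H76.CR.zord_eq (hne u hu)]
  rw [h1, ← Finset.sum_filter_add_sum_filter_not S (fun u => 0 < u.im), two_mul]
  refine add_le_add (hK _ fun u hu => ?_) ?_
  · rw [Finset.mem_filter] at hu
    exact ⟨hz u hu.1, hu.2, (le_abs_self _).trans (hS u hu.1).2.2, (hS u hu.1).2.1⟩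
  · have h2 : ∑ u ∈ S.filter (fun u => ¬ 0 < u.im), (analyticOrderNatAt riemannZeta u : ℝ) =
        ∑ u ∈ (S.filter (fun u => ¬ 0 < u.im)).image (starRingEnd ℂ),
          (analyticOrderNatAt riemannZeta u : ℝ) := by
      rw [Finset.sum_image fun a _ b _ hab => (starRingEnd ℂ).injective hab]
      refine Finset.sum_congr rfl fun u hu => ?_
      rw [psb_mult_conj (hne u (Finset.mem_filter.1 hu).1)]
    rw [h2]
    refine hK _ fun v hv => ?_
    rw [Finset.mem_image] at hv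
    obtain ⟨u, hu, rfl⟩ := hv
    rw [Finset.mem_filter] at hu
    have h3 : u.im < 0 := lt_of_le_of_ne (not_lt.1 hu.2) (him u hu.1)
    rw [Complex.conj_im, Complex.conj_re]
    refine ⟨Pool.Agent.H76.PS.zeta_conj_zero (hz u hu.1), by linarith, ?_, (hS u hu.1).2.1⟩
    have h4 := (hS u hu.1).2.2
    rw [abs_of_neg h3] at h4
    exact h4

/-- The growth of the width. -/
private theorem psb_ev (M : ℝ) : ∃ Y : ℝ, ∀ y : ℝ, Y ≤ y → 1 ≤ y ∧ 1 ≤ Real.log y ∧
    y ^ (2 / 5 : ℝ) ≤ y ^ (3 / 5 : ℝ) / Real.log y ^ (1 / 5 : ℝ) ∧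
    y ^ (3 / 5 : ℝ) / Real.log y ^ (1 / 5 : ℝ) ≤ y ^ (3 / 5 : ℝ) ∧
    Real.log y ≤ y ^ (2 / 5 : ℝ) ∧ M ≤ y ^ (4 / 15 : ℝ) ∧ M ≤ y ^ (2 / 5 : ℝ) := by
  have h1 : ∀ᶠ y : ℝ in Filter.atTop, Real.log y ≤ y ^ (2 / 5 : ℝ) := by
    have h2 := (isLittleO_log_rpow_atTop (r := 2 / 5) (by norm_num)).bound
      (c := 1) one_pos
    filter_upwards [h2, Filter.eventually_ge_atTop 1] with y hy hy1
    rw [one_mul, Real.norm_of_nonneg (Real.log_nonneg hy1),
      Real.norm_of_nonneg (Real.rpow_nonneg (by linarith) _)] at hy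
    exact hy
  have h2 := (tendsto_rpow_atTop (y := 4 / 15) (by norm_num)).eventually_ge_atTop M
  have h3 := (tendsto_rpow_atTop (y := 2 / 5) (by norm_num)).eventually_ge_atTop M
  obtain ⟨Y, hY⟩ := Filter.eventually_atTop.1 (((h1.and h2).and h3).and
    (Filter.eventually_ge_atTop (Real.exp 1)))
  refine ⟨Y, fun y hy => ?_⟩
  obtain ⟨⟨⟨h4, h5⟩, h6⟩, h7⟩ := hY y hy
  have hy1 : 1 ≤ y := by
    have := Real.add_one_le_exp (1 : ℝ)
    linarith
  have hy0 : 0 < y := by linarith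
  have hl : 1 ≤ Real.log y := by
    rw [Real.le_log_iff_exp_le hy0]
    exact h7
  have hl5 : 1 ≤ Real.log y ^ (1 / 5 : ℝ) := Real.one_le_rpow hl (by norm_num)
  refine ⟨hy1, hl, ?_, ?_, h4, h5, h6⟩
  · rw [le_div_iff₀ (by linarith)]
    have h8 : Real.log y ^ (1 / 5 : ℝ) ≤ y ^ (1 / 5 : ℝ) :=
      Real.rpow_le_rpow (by linarith) ((Real.log_le_sub_one_of_pos hy0).trans (by linarith))
        (by norm_num)
    calc y ^ (2 / 5 : ℝ) * Real.log y ^ (1 / 5 : ℝ) ≤ y ^ (2 / 5 : ℝ) * y ^ (1 / 5 : ℝ) :=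
          mul_le_mul_of_nonneg_left h8 (Real.rpow_nonneg hy0.le _)
      _ = y ^ (3 / 5 : ℝ) := by
          rw [← Real.rpow_add hy0]
          norm_num
  · exact div_le_self (Real.rpow_nonneg hy0.le _) hl5

/-- The parameters. -/
private theorem psb_par {A lam μ y w M : ℝ} (hlam : 0 < lam) (hA : A = 2 * lam + 4)
    (hμ : μ = A ^ (2 / 3 : ℝ) * (2 * A + lam + 2)) (hy : 1 ≤ y) (hl : 1 ≤ Real.log y)
    (hw : w = y ^ (3 / 5 : ℝ) / Real.log y ^ (1 / 5 : ℝ)) (hw1 : y ^ (2 / 5 : ℝ) ≤ w)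
    (hw2 : w ≤ y ^ (3 / 5 : ℝ)) (hM1 : M ≤ y ^ (4 / 15 : ℝ)) (hM2 : M ≤ y ^ (2 / 5 : ℝ))
    (hMA : 4 * A ≤ M) :
    4 ≤ A * w ∧ A * w ≤ y / 4 ∧
      0 < (A * w) ^ (2 / 3 : ℝ) * Real.log (A * w) ^ (1 / 3 : ℝ) ∧
      M ≤ (A * w) ^ (2 / 3 : ℝ) * Real.log (A * w) ^ (1 / 3 : ℝ) ∧
      (A * w) ^ (2 / 3 : ℝ) * Real.log (A * w) ^ (1 / 3 : ℝ) ≤ y ∧
      (2 * A + lam + 2) * w ≤
        μ / ((A * w) ^ (2 / 3 : ℝ) * Real.log (A * w) ^ (1 / 3 : ℝ)) * y := by
  have hA4 : 4 ≤ A := by linarith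
  have hy0 : 0 < y := by linarith
  have hy25 : 1 ≤ y ^ (2 / 5 : ℝ) := Real.one_le_rpow hy (by norm_num)
  have hw0 : 1 ≤ w := hy25.trans hw1
  have ha4 : 4 ≤ A * w := by nlinarith
  have ha0 : 0 < A * w := by linarith
  have hay : A * w ≤ y / 4 := by
    have h1 : y = y ^ (3 / 5 : ℝ) * y ^ (2 / 5 : ℝ) := by
      rw [← Real.rpow_add hy0]
      norm_num
    have h2 : 0 ≤ y ^ (3 / 5 : ℝ) := Real.rpow_nonneg hy0.le _
    have h3 : A * w ≤ A * y ^ (3 / 5 : ℝ) := mul_le_mul_of_nonneg_left hw2 (by linarith)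
    have h4 : y ^ (3 / 5 : ℝ) * (4 * A) ≤ y ^ (3 / 5 : ℝ) * y ^ (2 / 5 : ℝ) :=
      mul_le_mul_of_nonneg_left (hMA.trans hM2) h2
    rw [← h1] at h4
    linarith
  have hla : 1 ≤ Real.log (A * w) := by
    rw [Real.le_log_iff_exp_le ha0]
    have := Real.exp_one_lt_three
    linarith
  have hla' : Real.log (A * w) ≤ A * w := (Real.log_le_sub_one_of_pos ha0).trans (by linarith)
  have h13 : 1 ≤ Real.log (A * w) ^ (1 / 3 : ℝ) := Real.one_le_rpow hla (by norm_num)
  have h23 : 0 < (A * w) ^ (2 / 3 : ℝ) := Real.rpow_pos_of_pos ha0 _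
  have hD0 : 0 < (A * w) ^ (2 / 3 : ℝ) * Real.log (A * w) ^ (1 / 3 : ℝ) := by positivity
  refine ⟨ha4, hay, hD0, ?_, ?_, ?_⟩
  · have h1 : y ^ (4 / 15 : ℝ) ≤ (A * w) ^ (2 / 3 : ℝ) := by
      have h2 : y ^ (4 / 15 : ℝ) = (y ^ (2 / 5 : ℝ)) ^ (2 / 3 : ℝ) := by
        rw [← Real.rpow_mul hy0.le]
        norm_num
      rw [h2]
      refine Real.rpow_le_rpow (by positivity) ?_ (by norm_num)
      nlinarith
    nlinarith
  · have h1 : Real.log (A * w) ^ (1 / 3 : ℝ) ≤ (A * w) ^ (1 / 3 : ℝ) :=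
      Real.rpow_le_rpow (by linarith) hla' (by norm_num)
    calc (A * w) ^ (2 / 3 : ℝ) * Real.log (A * w) ^ (1 / 3 : ℝ)
        ≤ (A * w) ^ (2 / 3 : ℝ) * (A * w) ^ (1 / 3 : ℝ) := mul_le_mul_of_nonneg_left h1 h23.le
      _ = A * w := by
          rw [← Real.rpow_add ha0]
          norm_num
      _ ≤ y := by linarith
  · rw [div_mul_eq_mul_div, le_div_iff₀ hD0, hμ]
    have h1 : Real.log (A * w) ^ (1 / 3 : ℝ) ≤ Real.log y ^ (1 / 3 : ℝ) :=
      Real.rpow_le_rpow (by linarith) (Real.log_le_log ha0 (by linarith)) (by norm_num)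
    have hw0' : 0 < w := by linarith
    have h2 : w * w ^ (2 / 3 : ℝ) * Real.log y ^ (1 / 3 : ℝ) = y := by
      have h3 : w * w ^ (2 / 3 : ℝ) = w ^ (5 / 3 : ℝ) := by
        conv_lhs => rw [← Real.rpow_one w]
        rw [← Real.rpow_mul hw0'.le, ← Real.rpow_add hw0']
        norm_num
      rw [h3, hw, Real.div_rpow (by positivity) (by positivity), ← Real.rpow_mul hy0.le,
        ← Real.rpow_mul (by linarith : (0 : ℝ) ≤ Real.log y),
        show (3 / 5 * (5 / 3) : ℝ) = 1 by norm_num, show (1 / 5 * (5 / 3) : ℝ) = 1 / 3 by norm_num,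
        Real.rpow_one]
      have h4 : 0 < Real.log y ^ (1 / 3 : ℝ) := Real.rpow_pos_of_pos (by linarith) _
      field_simp
    have hA23 : 0 ≤ A ^ (2 / 3 : ℝ) := Real.rpow_nonneg (by linarith) _
    have h5 : (A * w) ^ (2 / 3 : ℝ) = A ^ (2 / 3 : ℝ) * w ^ (2 / 3 : ℝ) :=
      Real.mul_rpow (by linarith) hw0'.le
    calc (2 * A + lam + 2) * w * ((A * w) ^ (2 / 3 : ℝ) * Real.log (A * w) ^ (1 / 3 : ℝ))
        ≤ (2 * A + lam + 2) * w * ((A * w) ^ (2 / 3 : ℝ) * Real.log y ^ (1 / 3 : ℝ)) := by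
          refine mul_le_mul_of_nonneg_left (mul_le_mul_of_nonneg_left h1 h23.le) ?_
          have : 0 ≤ 2 * A + lam + 2 := by linarith
          positivity
      _ = A ^ (2 / 3 : ℝ) * (2 * A + lam + 2) *
            (w * w ^ (2 / 3 : ℝ) * Real.log y ^ (1 / 3 : ℝ)) := by
          rw [h5]
          ring
      _ = A ^ (2 / 3 : ℝ) * (2 * A + lam + 2) * y := by rw [h2]

/-- The height `T + 2`. -/
private theorem psb_height {a μ : ℝ} (ha : 4 ≤ a) (hμ : 0 < μ) :
    3 ≤ Real.exp a + 2 ∧ 2 * (μ / (a ^ (2 / 3 : ℝ) * Real.log a ^ (1 / 3 : ℝ))) <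
      8 * μ / (Real.log (Real.exp a + 2) ^ (2 / 3 : ℝ) *
        Real.log (Real.log (Real.exp a + 2)) ^ (1 / 3 : ℝ)) := by
  have ha0 : 0 < a := by linarith
  have hE : a + 1 ≤ Real.exp a := Real.add_one_le_exp a
  have hE0 : 0 < Real.exp a := Real.exp_pos a
  have h1 : a ≤ Real.log (Real.exp a + 2) := by
    rw [Real.le_log_iff_exp_le (by linarith)]
    linarith
  have h2 : Real.log (Real.exp a + 2) ≤ 2 * a := by
    rw [Real.log_le_iff_le_exp (by linarith), two_mul, Real.exp_add]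
    nlinarith
  have hla : 1 ≤ Real.log a := by
    rw [Real.le_log_iff_exp_le ha0]
    have := Real.exp_one_lt_three
    linarith
  have h3 : Real.log (Real.log (Real.exp a + 2)) ≤ 2 * Real.log a := by
    have h4 : Real.log (Real.log (Real.exp a + 2)) ≤ Real.log (a * a) :=
      Real.log_le_log (by linarith) (h2.trans (by nlinarith))
    rw [Real.log_mul ha0.ne' ha0.ne'] at h4
    linarith
  have h4 : 1 ≤ Real.log (Real.log (Real.exp a + 2)) :=
    hla.trans (Real.log_le_log ha0 h1)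
  have h5 : Real.log (Real.exp a + 2) ^ (2 / 3 : ℝ) ≤ 2 ^ (2 / 3 : ℝ) * a ^ (2 / 3 : ℝ) := by
    rw [← Real.mul_rpow (by norm_num) ha0.le]
    exact Real.rpow_le_rpow (by linarith) h2 (by norm_num)
  have h6 : Real.log (Real.log (Real.exp a + 2)) ^ (1 / 3 : ℝ) ≤
      2 ^ (1 / 3 : ℝ) * Real.log a ^ (1 / 3 : ℝ) := by
    rw [← Real.mul_rpow (by norm_num) (by linarith)]
    exact Real.rpow_le_rpow (by linarith) h3 (by norm_num)
  have h7 : 0 < Real.log (Real.exp a + 2) ^ (2 / 3 : ℝ) := Real.rpow_pos_of_pos (by linarith) _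
  have h8 : 0 < Real.log (Real.log (Real.exp a + 2)) ^ (1 / 3 : ℝ) :=
    Real.rpow_pos_of_pos (by linarith) _
  have h9 : 0 < a ^ (2 / 3 : ℝ) := Real.rpow_pos_of_pos ha0 _
  have h10 : 0 < Real.log a ^ (1 / 3 : ℝ) := Real.rpow_pos_of_pos (by linarith) _
  refine ⟨by linarith, ?_⟩
  have h11 : Real.log (Real.exp a + 2) ^ (2 / 3 : ℝ) *
      Real.log (Real.log (Real.exp a + 2)) ^ (1 / 3 : ℝ) ≤
        2 * (a ^ (2 / 3 : ℝ) * Real.log a ^ (1 / 3 : ℝ)) := by
    have h12 : (2 : ℝ) ^ (2 / 3 : ℝ) * 2 ^ (1 / 3 : ℝ) = 2 := by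
      rw [← Real.rpow_add (by norm_num)]
      norm_num
    calc _ ≤ (2 ^ (2 / 3 : ℝ) * a ^ (2 / 3 : ℝ)) * (2 ^ (1 / 3 : ℝ) * Real.log a ^ (1 / 3 : ℝ)) :=
          mul_le_mul h5 h6 h8.le (by positivity)
      _ = (2 ^ (2 / 3 : ℝ) * 2 ^ (1 / 3 : ℝ)) * (a ^ (2 / 3 : ℝ) * Real.log a ^ (1 / 3 : ℝ)) := by
          ring
      _ = _ := by rw [h12]
  set D := a ^ (2 / 3 : ℝ) * Real.log a ^ (1 / 3 : ℝ) with hD
  have hD0 : 0 < D := mul_pos h9 h10
  rw [lt_div_iff₀ (mul_pos h7 h8), mul_div_assoc', div_mul_eq_mul_div, div_lt_iff₀ hD0]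
  have h13 : 2 * μ * (Real.log (Real.exp a + 2) ^ (2 / 3 : ℝ) *
      Real.log (Real.log (Real.exp a + 2)) ^ (1 / 3 : ℝ)) ≤ 2 * μ * (2 * D) :=
    mul_le_mul_of_nonneg_left h11 (by linarith)
  have h14 : 0 < μ * D := mul_pos hμ hD0
  linarith

theorem psb (lam : ℝ) (hlam : 0 < lam) : ∃ K C : ℝ, 0 < C ∧ ∀ x : ℝ, 3 ≤ x →
    ∃ Z : Finset ℂ, (∀ ρ ∈ Z, riemannZeta ρ = 0 ∧ 1 / 2 < ρ.re) ∧
      (∑ ρ ∈ Z, (analyticOrderNatAt riemannZeta ρ : ℝ)) ≤ K ∧
      ‖((∑ n ∈ Finset.Icc 1 ⌊x⌋₊, ArithmeticFunction.vonMangoldt n : ℝ) : ℂ) - x +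
          ∑ ρ ∈ Z, (analyticOrderNatAt riemannZeta ρ : ℂ) * ((x : ℂ) ^ ρ / ρ)‖ ≤
        C * x * Real.exp (-(lam * (Real.log x ^ (3 / 5 : ℝ) /
          Real.log (Real.log x) ^ (1 / 5 : ℝ)))) := by
  obtain ⟨C0, hC0, hpsa⟩ := psa
  set A : ℝ := 2 * lam + 4 with hA
  set μ : ℝ := A ^ (2 / 3 : ℝ) * (2 * A + lam + 2) with hμ
  have hA4 : 4 ≤ A := by linarith
  have hμ0 : 0 < μ := mul_pos (Real.rpow_pos_of_pos (by linarith) _) (by linarith)
  obtain ⟨K, hK⟩ := Pool.Agent.H48.LD.main.2 (8 * μ) (by linarith)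
  have hK0 : 0 ≤ K := by
    have h1 := hK 3 ∅ le_rfl (fun ρ hρ => absurd hρ (Finset.notMem_empty ρ))
    rwa [Finset.sum_empty] at h1
  obtain ⟨c, hc0, -, hc⟩ := Pool.Agent.H48.LD.small 0
  set M : ℝ := max (4 * A) (μ * (8 + 2 / c)) with hM
  obtain ⟨Y, hY⟩ := psb_ev M
  -- the two ranges
  set X0 : ℝ := max (max C0 (Real.exp Y)) 3 with hX0
  have hX3 : 3 ≤ X0 := le_max_right _ _
  set N : ℕ := ⌊2 * K⌋₊ with hN
  have hNK : (N : ℝ) ≤ 2 * K := Nat.floor_le (by linarith)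
  set W0 : ℝ := Real.log X0 ^ (3 / 5 : ℝ) / Real.log (Real.log 3) ^ (1 / 5 : ℝ) with hW0
  set C1 : ℝ := (Real.log X0 + 1) * Real.exp (lam * W0) with hC1
  set C2 : ℝ := C0 * (1 + N) ^ 2 * (2 / μ) with hC2
  have hlogX0 : 0 < Real.log X0 := Real.log_pos (by linarith)
  have hC1' : 0 < C1 := mul_pos (by linarith) (Real.exp_pos _)
  have hC2' : 0 < C2 := by positivity
  refine ⟨2 * K, C1 + C2, by linarith, fun x hx => ?_⟩
  have hx0 : 0 < x := by linarith
  rcases lt_or_ge x X0 with hlt | hge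
  · -- small `x`
    refine ⟨∅, fun ρ hρ => absurd hρ (Finset.notMem_empty ρ), by rw [Finset.sum_empty]; linarith,
      ?_⟩
    rw [Finset.sum_empty, add_zero]
    refine (psb_triv (by linarith)).trans ?_
    have hl3 : 0 < Real.log (Real.log 3) := by
      apply Real.log_pos
      rw [Real.lt_log_iff_exp_lt (by norm_num)]
      exact Real.exp_one_lt_three
    have hlog3 : 0 < Real.log 3 := Real.log_pos (by norm_num)
    have hlx : Real.log x ≤ Real.log X0 := Real.log_le_log hx0 hlt.le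
    have hl3x : Real.log 3 ≤ Real.log x := Real.log_le_log (by norm_num) hx
    have hW : Real.log x ^ (3 / 5 : ℝ) / Real.log (Real.log x) ^ (1 / 5 : ℝ) ≤ W0 := by
      refine div_le_div₀ (Real.rpow_nonneg hlogX0.le _)
        (Real.rpow_le_rpow (by linarith) hlx (by norm_num))
        (Real.rpow_pos_of_pos hl3 _)
        (Real.rpow_le_rpow hl3.le (Real.log_le_log hlog3 hl3x) (by norm_num))
    have h1 : 1 ≤ Real.exp (lam * W0) * Real.exp (-(lam * (Real.log x ^ (3 / 5 : ℝ) /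
          Real.log (Real.log x) ^ (1 / 5 : ℝ)))) := by
      rw [← Real.exp_add]
      apply Real.one_le_exp
      have := mul_le_mul_of_nonneg_left hW hlam.le
      linarith
    have h2 : x * (Real.log x + 1) ≤ x * (Real.log X0 + 1) :=
      mul_le_mul_of_nonneg_left (by linarith) hx0.le
    have h3 : x * (Real.log X0 + 1) * 1 ≤ x * (Real.log X0 + 1) *
        (Real.exp (lam * W0) * Real.exp (-(lam * (Real.log x ^ (3 / 5 : ℝ) /
          Real.log (Real.log x) ^ (1 / 5 : ℝ))))) :=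
      mul_le_mul_of_nonneg_left h1 (mul_nonneg hx0.le (by linarith))
    have h4 : 0 ≤ C2 * x * Real.exp (-(lam * (Real.log x ^ (3 / 5 : ℝ) /
          Real.log (Real.log x) ^ (1 / 5 : ℝ)))) := by positivity
    calc x * (Real.log x + 1) ≤ x * (Real.log X0 + 1) * 1 := by linarith
      _ ≤ _ := h3
      _ = C1 * x * Real.exp (-(lam * (Real.log x ^ (3 / 5 : ℝ) /
          Real.log (Real.log x) ^ (1 / 5 : ℝ)))) := by rw [hC1]; ring
      _ ≤ _ := by rw [add_mul, add_mul]; linarith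
  · -- large `x`
    set y : ℝ := Real.log x with hy
    have hyY : Y ≤ y := by
      rw [hy, Real.le_log_iff_exp_le hx0]
      exact ((le_max_right _ _).trans (le_max_left _ _)).trans hge
    have hxC : C0 ≤ x := ((le_max_left _ _).trans (le_max_left _ _)).trans hge
    have hxy : x = Real.exp y := (Real.exp_log hx0).symm
    obtain ⟨hy1, hl1, hw1, hw2, hlw, hM1, hM2⟩ := hY y hyY
    set w : ℝ := y ^ (3 / 5 : ℝ) / Real.log y ^ (1 / 5 : ℝ) with hw
    obtain ⟨ha4, hay, hD0, hMD, hDy, hηy⟩ := psb_par hlam hA hμ hy1 hl1 hw hw1 hw2 hM1 hM2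
      (le_max_left _ _)
    obtain ⟨hT3, hTη⟩ := psb_height ha4 hμ0
    set D : ℝ := (A * w) ^ (2 / 3 : ℝ) * Real.log (A * w) ^ (1 / 3 : ℝ) with hD
    have hη0 : 0 < μ / D := div_pos hμ0 hD0
    have h2c : 0 < 2 / c := by positivity
    have hM' : μ * (8 + 2 / c) ≤ D := (le_max_right _ _).trans hMD
    have hη8 : μ / D ≤ 1 / 8 := by
      rw [div_le_iff₀ hD0]
      have : 0 < μ * (2 / c) := mul_pos hμ0 h2c
      linarith
    have hηc : 2 * (μ / D) ≤ c := by
      rw [mul_div_assoc', div_le_iff₀ hD0]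
      have h1 : c * (μ * (8 + 2 / c)) ≤ c * D := mul_le_mul_of_nonneg_left hM' hc0.le
      have h2 : c * (μ * (8 + 2 / c)) = 8 * c * μ + 2 * μ := by
        field_simp
      have h3 : 0 < c * μ := mul_pos hc0 hμ0
      linarith
    -- the number of zeros
    have hcount : ∀ S : Finset ℂ, (∀ u ∈ S, zetaPole u = 0 ∧ 1 - 2 * (μ / D) ≤ u.re ∧
        |u.im| ≤ Real.exp (A * w) + 2) → mul S ≤ N := by
      intro S hS
      rw [hN, Nat.le_floor_iff (by linarith)]
      refine psb_count (K := K) (T := Real.exp (A * w) + 2) (δ := 2 * (μ / D))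
        (fun S' hS' => ?_) (fun s hs h0 => ?_) S hS
      · refine hK (Real.exp (A * w) + 2) S' hT3 fun ρ hρ => ?_
        obtain ⟨h1, h2, h3, h4⟩ := hS' ρ hρ
        exact ⟨h1, by linarith, h2, h3, by linarith⟩
      · have h1 := hc s hs h0
        linarith
    obtain ⟨Z, hZ, hZN, hmain⟩ := hpsa x (Real.exp (A * w)) (μ / D) N hxC
      (by have := Real.add_one_le_exp (A * w); linarith) (by
        rw [hxy, ← Real.exp_mul]
        exact Real.exp_le_exp.2 (by linarith)) hη0 hη8 hcount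
    have hne : ∀ u ∈ Z, u ≠ 1 := by
      rintro u hu rfl
      have h1 := (hZ _ hu).1
      unfold zetaPole at h1
      rw [Function.update_self] at h1
      exact one_ne_zero h1
    refine ⟨Z, fun ρ hρ => ⟨?_, ?_⟩, ?_, ?_⟩
    · exact (Pool.Agent.H76.CR.zetaPole_eq_zero_iff (hne ρ hρ)).1 (hZ ρ hρ).1
    · have := (hZ ρ hρ).2.1
      linarith
    · have h1 : ∑ ρ ∈ Z, (analyticOrderNatAt riemannZeta ρ : ℝ) = (mul Z : ℝ) := by
        unfold mul
        push_cast
        refine Finset.sum_congr rfl fun u hu => ?_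
        rw [Pool.Agent.H76.CR.zord_eq (hne u hu)]
      rw [h1]
      exact (Nat.cast_le.2 hZN).trans hNK
    · have h1 : ∑ ρ ∈ Z, (analyticOrderNatAt riemannZeta ρ : ℂ) * ((x : ℂ) ^ ρ / ρ) =
          ∑ ρ ∈ Z, (zord ρ : ℂ) * ((x : ℂ) ^ ρ / ρ) := by
        refine Finset.sum_congr rfl fun u hu => ?_
        rw [Pool.Agent.H76.CR.zord_eq (hne u hu)]
      rw [h1]
      refine hmain.trans ?_
      -- the error
      have hw0 : 0 < w := by
        have : 1 ≤ y ^ (2 / 5 : ℝ) := Real.one_le_rpow hy1 (by norm_num)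
        linarith
      have e1 : √(Real.exp (A * w)) = Real.exp ((lam + 2) * w) := by
        rw [← Real.exp_half, hA]
        congr 1
        ring
      have e2 : x ^ (-(μ / D)) * Real.exp (A * w) ^ 2 ≤ Real.exp (-((lam + 2) * w)) := by
        rw [hxy, ← Real.exp_mul, ← Real.exp_nat_mul, ← Real.exp_add]
        apply Real.exp_le_exp.2
        push_cast
        linarith
      have e3 : y ≤ Real.exp w := by
        rw [← Real.log_le_iff_le_exp (by linarith)]
        linarith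
      have e4 : y / √(Real.exp (A * w)) = y * Real.exp (-((lam + 2) * w)) := by
        rw [e1, Real.exp_neg, div_eq_mul_inv]
      have e5 : y / √(Real.exp (A * w)) + x ^ (-(μ / D)) * Real.exp (A * w) ^ 2 ≤
          2 * y * Real.exp (-((lam + 2) * w)) := by
        rw [e4]
        have h2 : Real.exp (-((lam + 2) * w)) ≤ y * Real.exp (-((lam + 2) * w)) :=
          le_mul_of_one_le_left (Real.exp_pos _).le hy1
        linarith
      have e6 : x / (μ / D) ≤ x * (y / μ) := by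
        rw [div_div_eq_mul_div, mul_div_assoc]
        exact mul_le_mul_of_nonneg_left (div_le_div_of_nonneg_right hDy hμ0.le) hx0.le
      have e7 : y * y * Real.exp (-((lam + 2) * w)) ≤ Real.exp (-(lam * w)) := by
        have h3 : Real.exp (-((lam + 2) * w)) =
            Real.exp (-(lam * w)) * (Real.exp (-w) * Real.exp (-w)) := by
          rw [← Real.exp_add, ← Real.exp_add]
          congr 1
          ring
        have h4 : y * Real.exp (-w) ≤ 1 := by
          rw [Real.exp_neg, ← div_eq_mul_inv, div_le_one (Real.exp_pos _)]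
          exact e3
        have h5 : 0 ≤ y * Real.exp (-w) := by positivity
        have h6 : (y * Real.exp (-w)) * (y * Real.exp (-w)) ≤ 1 := by nlinarith
        rw [h3]
        have h7 := mul_le_mul_of_nonneg_left h6 (Real.exp_pos (-(lam * w))).le
        linarith
      have e8 : 0 ≤ C0 * (1 + (N : ℝ)) ^ 2 := by positivity
      calc C0 * (1 + (N : ℝ)) ^ 2 * (x / (μ / D)) *
            (y / √(Real.exp (A * w)) + x ^ (-(μ / D)) * Real.exp (A * w) ^ 2)
          ≤ C0 * (1 + (N : ℝ)) ^ 2 * (x * (y / μ)) *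
              (2 * y * Real.exp (-((lam + 2) * w))) := by
            refine mul_le_mul (mul_le_mul_of_nonneg_left e6 e8) e5 ?_ ?_
            · positivity
            · positivity
        _ = C2 * x * (y * y * Real.exp (-((lam + 2) * w))) := by
            rw [hC2]
            ring
        _ ≤ C2 * x * Real.exp (-(lam * w)) :=
            mul_le_mul_of_nonneg_left e7 (by positivity)
        _ ≤ (C1 + C2) * x * Real.exp (-(lam * w)) := by
            refine mul_le_mul_of_nonneg_right ?_ (Real.exp_pos _).le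
            refine mul_le_mul_of_nonneg_right (by linarith) hx0.le

end Pool.Agent.H48.LDP
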