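import Mathlib
import Pool.Agent.H48.LD.Fin
import Pool.Agent.H48.LDP.Psb

/-!
# Fin2: the exceptional zeros are doubly exponentially sparse
-/

set_option autoImplicit false

open Complex

namespace Pool.Agent.H48.LDP

open Pool.Agent.H48.LD

/-- the Vinogradov-Korobov function `(log T)^(2/3) (loglog T)^(1/3)` -/
noncomputable def VK (T : ℝ) : ℝ := Real.log T ^ (2 / 3 : ℝ) * Real.log (Real.log T) ^ (1 / 3 : ℝ)

theorem log3 : Real.exp (2 / 25) ≤ Real.log 3 := by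
  rw [Real.le_log_iff_exp_le (by norm_num)]
  have h1 : Real.exp (2 / 25) ≤ 1 + 87 / 1000 := by
    have h2 := Real.add_one_le_exp (-(2 / 25 : ℝ))
    have h3 : Real.exp (2 / 25) * Real.exp (-(2 / 25)) = 1 := by
      rw [← Real.exp_add]; norm_num
    have h4 := Real.exp_pos (2 / 25)
    nlinarith
  have h2 : Real.exp (87 / 1000) ≤ 1 + 1 / 10 := by
    have h2 := Real.add_one_le_exp (-(87 / 1000 : ℝ))
    have h3 : Real.exp (87 / 1000) * Real.exp (-(87 / 1000)) = 1 := by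
      rw [← Real.exp_add]; norm_num
    have h4 := Real.exp_pos (87 / 1000)
    nlinarith
  calc Real.exp (Real.exp (2 / 25)) ≤ Real.exp (1 + 87 / 1000) := Real.exp_le_exp.2 h1
    _ = Real.exp 1 * Real.exp (87 / 1000) := Real.exp_add _ _
    _ ≤ 2.7182818286 * (1 + 1 / 10) :=
        mul_le_mul Real.exp_one_lt_d9.le h2 (Real.exp_pos _).le (by norm_num)
    _ ≤ 3 := by norm_num

theorem loglog3 {T : ℝ} (hT : 3 ≤ T) : 1 ≤ Real.log T ∧ 2 / 25 ≤ Real.log (Real.log T) := by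
  have h0 : Real.log 3 ≤ Real.log T := Real.log_le_log (by norm_num) hT
  have h1 := log3.trans h0
  have h2 : 1 ≤ Real.exp (2 / 25) := Real.one_le_exp (by norm_num)
  have h3 : 0 < Real.log T := by linarith
  exact ⟨by linarith, (Real.le_log_iff_exp_le h3).2 h1⟩

theorem VK_pos {T : ℝ} (hT : 3 ≤ T) : 0 < VK T := by
  obtain ⟨h1, h2⟩ := loglog3 hT
  unfold VK
  exact mul_pos (Real.rpow_pos_of_pos (by linarith) _) (Real.rpow_pos_of_pos (by linarith) _)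

theorem VK_mono {T U : ℝ} (hT : 3 ≤ T) (h : T ≤ U) : VK T ≤ VK U := by
  obtain ⟨h1, h2⟩ := loglog3 hT
  have h3 : Real.log T ≤ Real.log U := Real.log_le_log (by linarith) h
  have h4 : Real.log (Real.log T) ≤ Real.log (Real.log U) := Real.log_le_log (by linarith) h3
  unfold VK
  apply mul_le_mul (Real.rpow_le_rpow (by linarith) h3 (by norm_num))
    (Real.rpow_le_rpow (by linarith) h4 (by norm_num)) (Real.rpow_nonneg (by linarith) _)
    (Real.rpow_nonneg (by linarith) _)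

theorem VK_sq {T : ℝ} (hT : 3 ≤ T) : VK (T ^ 2) ≤ 4 * VK T := by
  obtain ⟨h1, h2⟩ := loglog3 hT
  have hl : Real.log (T ^ 2) = 2 * Real.log T := by
    rw [Real.log_pow]; norm_num
  have hll : Real.log (2 * Real.log T) = Real.log 2 + Real.log (Real.log T) := by
    rw [Real.log_mul (by norm_num) (by linarith)]
  have hb : Real.log (Real.log (T ^ 2)) ≤ 10 * Real.log (Real.log T) := by
    rw [hl, hll]
    have := Real.log_two_lt_d9
    linarith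
  unfold VK
  rw [hl] at hb ⊢
  have e1 : (2 * Real.log T) ^ (2 / 3 : ℝ) = (2 : ℝ) ^ (2 / 3 : ℝ) * Real.log T ^ (2 / 3 : ℝ) :=
    Real.mul_rpow (by norm_num) (by linarith)
  have e2 : Real.log (2 * Real.log T) ^ (1 / 3 : ℝ) ≤
      (10 : ℝ) ^ (1 / 3 : ℝ) * Real.log (Real.log T) ^ (1 / 3 : ℝ) := by
    rw [← Real.mul_rpow (by norm_num) (by linarith)]
    apply Real.rpow_le_rpow _ hb (by norm_num)
    rw [hll]
    have := Real.log_pos (show (1 : ℝ) < 2 by norm_num)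
    linarith
  have e3 : (2 : ℝ) ^ (2 / 3 : ℝ) * (10 : ℝ) ^ (1 / 3 : ℝ) ≤ 4 := by
    have a1 : (2 : ℝ) ^ (2 / 3 : ℝ) = (4 : ℝ) ^ (1 / 3 : ℝ) := by
      rw [show (4 : ℝ) = (2 : ℝ) ^ (2 : ℝ) by norm_num, ← Real.rpow_mul (by norm_num)]
      norm_num
    rw [a1, ← Real.mul_rpow (by norm_num) (by norm_num)]
    calc (4 * 10 : ℝ) ^ (1 / 3 : ℝ) ≤ (64 : ℝ) ^ (1 / 3 : ℝ) :=
          Real.rpow_le_rpow (by norm_num) (by norm_num) (by norm_num)
      _ = 4 := by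
          rw [show (64 : ℝ) = (4 : ℝ) ^ (3 : ℝ) by norm_num, ← Real.rpow_mul (by norm_num)]
          norm_num
  rw [e1]
  have p1 : 0 ≤ Real.log T ^ (2 / 3 : ℝ) := Real.rpow_nonneg (by linarith) _
  have p2 : 0 ≤ Real.log (Real.log T) ^ (1 / 3 : ℝ) := Real.rpow_nonneg (by linarith) _
  have p3 : 0 ≤ (2 : ℝ) ^ (2 / 3 : ℝ) := Real.rpow_nonneg (by norm_num) _
  calc (2 : ℝ) ^ (2 / 3 : ℝ) * Real.log T ^ (2 / 3 : ℝ) * Real.log (2 * Real.log T) ^ (1 / 3 : ℝ)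
      ≤ (2 : ℝ) ^ (2 / 3 : ℝ) * Real.log T ^ (2 / 3 : ℝ) *
        ((10 : ℝ) ^ (1 / 3 : ℝ) * Real.log (Real.log T) ^ (1 / 3 : ℝ)) :=
        mul_le_mul_of_nonneg_left e2 (by positivity)
    _ = ((2 : ℝ) ^ (2 / 3 : ℝ) * (10 : ℝ) ^ (1 / 3 : ℝ)) *
        (Real.log T ^ (2 / 3 : ℝ) * Real.log (Real.log T) ^ (1 / 3 : ℝ)) := by ring
    _ ≤ 4 * (Real.log T ^ (2 / 3 : ℝ) * Real.log (Real.log T) ^ (1 / 3 : ℝ)) :=
        mul_le_mul_of_nonneg_right e3 (by positivity)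

/-- the density bound and the explicit count of the exceptional zeros -/
theorem expl : ∃ A B : ℝ, 0 < A ∧ 0 < B ∧
    (∀ σ T : ℝ, 1 / 2 ≤ σ → σ ≤ 1 → 3 ≤ T →
      {u : ℂ | riemannZeta u = 0 ∧ σ ≤ u.re ∧ 0 < u.im ∧ u.im ≤ T}.Finite ∧
      (NZ σ T : ℝ) ≤ A * Real.exp (B * ((1 - σ) ^ (3 / 2 : ℝ) * Real.log T + (1 - σ) * VK T))) ∧
    (∀ (lam T : ℝ) (S : Finset ℂ), 0 < lam → 3 ≤ T →
      (∀ ρ ∈ S, riemannZeta ρ = 0 ∧ 1 / 2 ≤ ρ.re ∧ 0 < ρ.im ∧ ρ.im ≤ T ∧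
        1 - lam / VK T < ρ.re) →
      ∑ ρ ∈ S, (analyticOrderNatAt riemannZeta ρ : ℝ) ≤
        A * Real.exp (B * (lam + lam ^ (3 / 2 : ℝ) / √(Real.log (Real.log T))))) := by
  obtain ⟨A, B, hA, hB, hmain⟩ := mainS
  refine ⟨A, B, hA, hB, fun σ T hσ hσ1 hT => ?_, fun lam T S hlam hT hS => ?_⟩
  · have hfin := nz_finite σ T hσ
    refine ⟨hfin, ?_⟩
    have h1 : (NZ σ T : ℝ) = ∑ ρ ∈ hfin.toFinset, (analyticOrderNatAt riemannZeta ρ : ℝ) := by
      rw [NZ, finsum_mem_eq_finite_toFinset_sum _ hfin, Nat.cast_sum]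
    rw [h1]
    refine hmain σ T _ hσ hσ1 hT fun ρ hρ => ?_
    exact (Set.Finite.mem_toFinset hfin).1 hρ
  · obtain ⟨g1, g2⟩ := loglog3 hT
    obtain ⟨L, hL⟩ : ∃ L : ℝ, L = Real.log T := ⟨_, rfl⟩
    obtain ⟨l, hl⟩ : ∃ l : ℝ, l = Real.log (Real.log T) := ⟨_, rfl⟩
    rw [← hL] at g1
    rw [← hl] at g2
    have hL0 : 0 < L := by linarith
    have hl0 : 0 < l := by linarith
    obtain ⟨D, hD⟩ : ∃ D : ℝ, D = VK T := ⟨_, rfl⟩
    have hD' : D = L ^ (2 / 3 : ℝ) * l ^ (1 / 3 : ℝ) := by rw [hD, VK, ← hl, ← hL]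
    have hD0 : 0 < D := by
      rw [hD']
      positivity
    obtain ⟨σ, hσ⟩ : ∃ σ : ℝ, σ = max (1 / 2) (1 - lam / D) := ⟨_, rfl⟩
    have hσ1 : 1 / 2 ≤ σ := hσ ▸ le_max_left _ _
    have hlD : 0 < lam / D := by positivity
    have hσ2 : σ ≤ 1 := by
      rw [hσ]
      exact max_le (by norm_num) (by linarith)
    have hσ3 : 1 - σ ≤ lam / D := by
      have h0 : 1 - lam / D ≤ σ := hσ ▸ le_max_right _ _
      linarith
    have h1 := hmain σ T S hσ1 hσ2 hT ?_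
    swap
    · intro ρ hρ
      obtain ⟨g1, g2, g3, g4, g5⟩ := hS ρ hρ
      refine ⟨g1, ?_, g3, g4⟩
      rw [← hD] at g5
      rw [hσ]
      exact max_le g2 g5.le
    refine h1.trans ?_
    rw [← hl, ← hL, ← hD']
    have h2 : (1 - σ) ^ (3 / 2 : ℝ) * L ≤ lam ^ (3 / 2 : ℝ) / √l := by
      have h3 : (1 - σ) ^ (3 / 2 : ℝ) ≤ (lam / D) ^ (3 / 2 : ℝ) :=
        Real.rpow_le_rpow (by linarith) hσ3 (by norm_num)
      rw [Real.div_rpow hlam.le hD0.le] at h3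
      have h5 : D ^ (3 / 2 : ℝ) = L * √l := by
        rw [hD', Real.mul_rpow (by positivity) (by positivity), ← Real.rpow_mul hL0.le,
          ← Real.rpow_mul hl0.le, Real.sqrt_eq_rpow]
        norm_num
      have h6 : 0 < √l := Real.sqrt_pos.2 hl0
      rw [h5] at h3
      calc (1 - σ) ^ (3 / 2 : ℝ) * L ≤ lam ^ (3 / 2 : ℝ) / (L * √l) * L :=
            mul_le_mul_of_nonneg_right h3 hL0.le
        _ = lam ^ (3 / 2 : ℝ) / √l := by
            field_simp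
    have h3 : (1 - σ) * D ≤ lam := by
      rw [← le_div_iff₀ hD0]
      exact hσ3
    have h4 : B * ((1 - σ) ^ (3 / 2 : ℝ) * L + (1 - σ) * D) ≤
        B * (lam + lam ^ (3 / 2 : ℝ) / √l) :=
      mul_le_mul_of_nonneg_left (by linarith) hB.le
    exact mul_le_mul_of_nonneg_left (Real.exp_le_exp.2 h4) hA.le

/-- with both forms of the exceptional set -/
theorem expl2 : ∃ A B : ℝ, 0 < A ∧ 0 < B ∧
    (∀ σ T : ℝ, 1 / 2 ≤ σ → σ ≤ 1 → 3 ≤ T →
      {u : ℂ | riemannZeta u = 0 ∧ σ ≤ u.re ∧ 0 < u.im ∧ u.im ≤ T}.Finite ∧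
      (NZ σ T : ℝ) ≤ A * Real.exp (B * ((1 - σ) ^ (3 / 2 : ℝ) * Real.log T + (1 - σ) * VK T))) ∧
    (∀ (lam T : ℝ) (S : Finset ℂ), 0 < lam → 3 ≤ T →
      ((∀ ρ ∈ S, riemannZeta ρ = 0 ∧ 1 / 2 ≤ ρ.re ∧ 0 < ρ.im ∧ ρ.im ≤ T ∧
          1 - lam / VK T < ρ.re) ∨
        (∀ ρ ∈ S, riemannZeta ρ = 0 ∧ 1 / 2 ≤ ρ.re ∧ T ≤ ρ.im ∧ ρ.im ≤ T ^ 2 ∧
          1 - lam / VK ρ.im < ρ.re)) →
      ∑ ρ ∈ S, (analyticOrderNatAt riemannZeta ρ : ℝ) ≤
        A * Real.exp (B * (lam + lam ^ (3 / 2 : ℝ) / √(Real.log (Real.log T))))) := by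
  obtain ⟨A, B, hA, hB, h1, h2⟩ := expl
  refine ⟨A, 8 * B, hA, by linarith, fun σ T hσ hσ1 hT => ?_, fun lam T S hlam hT hS => ?_⟩
  · obtain ⟨h3, h4⟩ := h1 σ T hσ hσ1 hT
    refine ⟨h3, h4.trans (mul_le_mul_of_nonneg_left (Real.exp_le_exp.2 ?_) hA.le)⟩
    have h5 : 0 ≤ (1 - σ) ^ (3 / 2 : ℝ) * Real.log T + (1 - σ) * VK T := by
      have := (loglog3 hT).1
      have := VK_pos hT
      have h6 : 0 ≤ (1 - σ) ^ (3 / 2 : ℝ) := Real.rpow_nonneg (by linarith) _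
      have h7 : 0 ≤ (1 - σ) ^ (3 / 2 : ℝ) * Real.log T := mul_nonneg h6 (by linarith)
      have h8 : 0 ≤ (1 - σ) * VK T := mul_nonneg (by linarith) (by linarith)
      linarith
    nlinarith
  · obtain ⟨g1, g2⟩ := loglog3 hT
    have hl0 : 0 < Real.log (Real.log T) := by linarith
    have hs0 : 0 < √(Real.log (Real.log T)) := Real.sqrt_pos.2 hl0
    have hp : 0 ≤ lam ^ (3 / 2 : ℝ) := Real.rpow_nonneg hlam.le _
    have hq : 0 ≤ lam ^ (3 / 2 : ℝ) / √(Real.log (Real.log T)) := div_nonneg hp hs0.le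
    rcases hS with hS | hS
    · refine (h2 lam T S hlam hT hS).trans (mul_le_mul_of_nonneg_left (Real.exp_le_exp.2 ?_) hA.le)
      nlinarith
    · have hT2 : T ≤ T ^ 2 := by nlinarith
      have h3 := h2 (4 * lam) (T ^ 2) S (by linarith) (by linarith) fun ρ hρ => by
        obtain ⟨a0, a1, a2, a3, a4⟩ := hS ρ hρ
        refine ⟨a0, a1, by linarith, a3, lt_of_le_of_lt ?_ a4⟩
        have hV : 0 < VK T := VK_pos hT
        have h5 : VK T ≤ VK ρ.im := VK_mono hT a2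
        have h6 := VK_sq hT
        have h7 : lam / VK ρ.im ≤ 4 * lam / VK (T ^ 2) := by
          have h8 : 0 < VK (T ^ 2) := lt_of_lt_of_le hV (VK_mono hT hT2)
          rw [div_le_div_iff₀ (by linarith) h8]
          nlinarith
        linarith
      refine h3.trans (mul_le_mul_of_nonneg_left (Real.exp_le_exp.2 ?_) hA.le)
      have h4 : (4 * lam) ^ (3 / 2 : ℝ) = 8 * lam ^ (3 / 2 : ℝ) := by
        rw [Real.mul_rpow (by norm_num) hlam.le]
        congr 1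
        rw [show (4 : ℝ) = 2 ^ (2 : ℝ) by norm_num, ← Real.rpow_mul (by norm_num)]
        norm_num
      have h5 : √(Real.log (Real.log T)) ≤ √(Real.log (Real.log (T ^ 2))) := by
        apply Real.sqrt_le_sqrt
        exact Real.log_le_log (by linarith) (Real.log_le_log (by linarith) hT2)
      have h6 : (4 * lam) ^ (3 / 2 : ℝ) / √(Real.log (Real.log (T ^ 2))) ≤
          8 * (lam ^ (3 / 2 : ℝ) / √(Real.log (Real.log T))) := by
        rw [h4, mul_div_assoc]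
        apply mul_le_mul_of_nonneg_left _ (by norm_num)
        exact div_le_div_of_nonneg_left hp hs0 h5
      nlinarith

end Pool.Agent.H48.LDP
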